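import Mathlib
import Pool.Agent.helper64.MF.JDef2

set_option autoImplicit false

/-!
# (J), finite lemmas: ranges, two of many translates, popular values
-/

namespace Pool.Agent.helper64.MFJ2

open Finset

section

variable {U : Type} [AddCommGroup U] [Finite U]

theorem rg_add (f g : AddMonoid.End U) : rg (f + g) ≤ rg f * rg g := by
  classical
  unfold rg
  have h : Set.range (f + g : AddMonoid.End U) ⊆
      (fun p : U × U => p.1 + p.2) '' ((Set.range f) ×ˢ (Set.range g)) := by
    rintro _ ⟨x, rfl⟩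
    exact ⟨(f x, g x), ⟨⟨x, rfl⟩, ⟨x, rfl⟩⟩, rfl⟩
  calc _ ≤ ((fun p : U × U => p.1 + p.2) '' ((Set.range f) ×ˢ (Set.range g))).ncard :=
        Set.ncard_le_ncard h (Set.toFinite _)
    _ ≤ ((Set.range f) ×ˢ (Set.range g)).ncard := Set.ncard_image_le (Set.toFinite _)
    _ = _ := Set.ncard_prod

theorem rg_pos (f : AddMonoid.End U) : 1 ≤ rg f := by
  unfold rg
  rw [Nat.one_le_iff_ne_zero]
  intro h
  rw [Set.ncard_eq_zero (Set.toFinite _)] at h
  exact (Set.range_nonempty f).ne_empty h

/-- `f + g` small and `g` small imply `f` small -/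
theorem rg_of_add (h2 : ∀ u : U, u + u = 0) (f g : AddMonoid.End U) : rg f ≤ rg (f + g) * rg g := by
  have h : f = (f + g) + g := by
    apply AddMonoidHom.ext
    intro x
    change f x = (f x + g x) + g x
    rw [add_assoc, h2, add_zero]
  calc rg f = rg ((f + g) + g) := by rw [← h]
    _ ≤ _ := rg_add _ _

end

/-- among many dense sets two meet in a dense set -/
theorem two_of_many {U : Type} [Fintype U] [Nonempty U] [DecidableEq U] (d : ℝ) (K : ℕ) (hK : 2 ≤ K * d ^ 2)
    (hd : 0 ≤ d)
    (W : Fin K → Finset U) (hW : ∀ k, d * (Fintype.card U : ℝ) ≤ ((W k).card : ℝ)) :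
    ∃ k l, k < l ∧ d ^ 2 / 2 * (Fintype.card U : ℝ) ≤ (((W k) ∩ (W l)).card : ℝ) := by
  classical
  by_contra hcon
  push Not at hcon
  have hn : (0 : ℝ) < (Fintype.card U : ℝ) := by exact_mod_cast Fintype.card_pos
  have hK0 : (0 : ℝ) < K := by
    rcases Nat.eq_zero_or_pos K with h | h
    · subst h; simp at hK; linarith
    · exact_mod_cast h
  set n : ℝ := (Fintype.card U : ℝ) with hnn
  -- the counting function
  let c : U → ℝ := fun x => ∑ k : Fin K, (if x ∈ W k then (1 : ℝ) else 0)
  have h1 : ∑ x, c x = ∑ k : Fin K, ((W k).card : ℝ) := by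
    simp only [c]
    rw [Finset.sum_comm]
    refine Finset.sum_congr rfl fun k _ => ?_
    rw [Finset.sum_ite_mem]
    simp
  have h2 : ∑ x, (c x) ^ 2 = ∑ k : Fin K, ∑ l : Fin K, (((W k) ∩ (W l)).card : ℝ) := by
    have : ∀ x, (c x) ^ 2 = ∑ k : Fin K, ∑ l : Fin K, (if x ∈ (W k) ∩ (W l) then (1 : ℝ) else 0) := by
      intro x
      rw [sq, Finset.sum_mul_sum]
      refine Finset.sum_congr rfl fun k _ => Finset.sum_congr rfl fun l _ => ?_
      by_cases hk : x ∈ W k <;> by_cases hl : x ∈ W l <;> simp [hk, hl]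
    simp only [this]
    rw [Finset.sum_comm]
    refine Finset.sum_congr rfl fun k _ => ?_
    rw [Finset.sum_comm]
    refine Finset.sum_congr rfl fun l _ => ?_
    rw [Finset.sum_ite_mem]
    simp
  have h3 : (∑ x, c x) ^ 2 ≤ n * ∑ x, (c x) ^ 2 := by
    have := sq_sum_le_card_mul_sum_sq (s := (univ : Finset U)) (f := c)
    simpa [hnn, Finset.card_univ] using this
  have h4 : K * (d * n) ≤ ∑ x, c x := by
    rw [h1]
    calc K * (d * n) = ∑ k : Fin K, (d * n) := by simp
      _ ≤ _ := Finset.sum_le_sum fun k _ => hW k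
  have h5 : ∑ x, (c x) ^ 2 < K * n + K ^ 2 * (d ^ 2 / 2 * n) := by
    rw [h2]
    have h6 : ∀ k l : Fin K, (((W k) ∩ (W l)).card : ℝ) ≤ (if k = l then n else 0) + d ^ 2 / 2 * n := by
      intro k l
      rcases lt_trichotomy k l with h | h | h
      · have := hcon k l h
        simp only [h.ne, if_false]
        linarith
      · subst h
        simp only [if_true]
        have h7 : (((W k) ∩ (W k)).card : ℝ) ≤ n := by
          rw [hnn]
          exact_mod_cast Finset.card_le_univ _
        have : 0 ≤ d ^ 2 / 2 * n := by positivity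
        linarith
      · have := hcon l k h
        rw [Finset.inter_comm] at this
        simp only [h.ne', if_false]
        linarith
    have h7 : ∀ k : Fin K, ∑ l : Fin K, (((W k) ∩ (W l)).card : ℝ) ≤ n + K * (d ^ 2 / 2 * n) := by
      intro k
      calc _ ≤ ∑ l : Fin K, ((if k = l then n else 0) + d ^ 2 / 2 * n) := Finset.sum_le_sum fun l _ => h6 k l
        _ = n + K * (d ^ 2 / 2 * n) := by
          rw [Finset.sum_add_distrib]
          simp
    have h8 : ∀ k : Fin K, ∑ l : Fin K, (((W k) ∩ (W l)).card : ℝ) < n + K * (d ^ 2 / 2 * n) := by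
      intro k
      refine lt_of_lt_of_le (b := ∑ l : Fin K, (((W k) ∩ (W l)).card : ℝ) + d ^ 2 / 2 * n) ?_ ?_
      · have hd2 : 0 < d ^ 2 := by
          by_contra h9
          have : d ^ 2 ≤ 0 := not_lt.1 h9
          nlinarith
        have : 0 < d ^ 2 / 2 * n := by positivity
        linarith
      · calc _ ≤ ∑ l : Fin K, ((if k = l then n else 0) + (if k = l then 0 else d ^ 2 / 2 * n)) + d ^ 2 / 2 * n := by
              gcongr with l
              rcases eq_or_ne k l with h | h
              · subst h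
                simp only [if_true, add_zero]
                rw [hnn]
                exact_mod_cast Finset.card_le_univ _
              · simp only [h, if_false, zero_add]
                rcases lt_or_gt_of_ne h with h' | h'
                · exact (hcon k l h').le
                · rw [Finset.inter_comm]; exact (hcon l k h').le
          _ = n + K * (d ^ 2 / 2 * n) := by
              rw [Finset.sum_add_distrib]
              have e1 : ∑ l : Fin K, (if k = l then (0 : ℝ) else d ^ 2 / 2 * n) = K * (d ^ 2 / 2 * n) - d ^ 2 / 2 * n := by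
                have : ∀ l : Fin K, (if k = l then (0 : ℝ) else d ^ 2 / 2 * n)
                    = d ^ 2 / 2 * n - (if k = l then d ^ 2 / 2 * n else 0) := by
                  intro l; split_ifs <;> simp
                simp only [this]
                rw [Finset.sum_sub_distrib]
                simp
              rw [e1]
              simp only [Finset.sum_ite_eq, Finset.mem_univ, if_true]
              ring
    have hKne : (univ : Finset (Fin K)).Nonempty := by
      rw [Finset.univ_nonempty_iff]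
      exact ⟨⟨0, by exact_mod_cast hK0⟩⟩
    calc _ < ∑ k : Fin K, (n + K * (d ^ 2 / 2 * n)) := Finset.sum_lt_sum_of_nonempty hKne fun k _ => h8 k
      _ = K * n + K ^ 2 * (d ^ 2 / 2 * n) := by simp; ring
  have h9 : (K * (d * n)) ^ 2 ≤ (∑ x, c x) ^ 2 := by
    apply pow_le_pow_left₀ (by positivity) h4
  have h10 : (K * (d * n)) ^ 2 < n * (K * n + K ^ 2 * (d ^ 2 / 2 * n)) := by
    calc _ ≤ _ := h9
      _ ≤ _ := h3
      _ < _ := by
        apply mul_lt_mul_of_pos_left h5 hn
  have h11 : (K * d ^ 2) * K < K + (K * d ^ 2) * K / 2 + 0 := by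
    have : (K * (d * n)) ^ 2 = (K * d ^ 2) * K * n ^ 2 := by ring
    have h12 : n * (K * n + K ^ 2 * (d ^ 2 / 2 * n)) = (K + (K * d ^ 2) * K / 2) * n ^ 2 := by ring
    rw [this, h12] at h10
    have := lt_of_mul_lt_mul_right h10 (by positivity)
    linarith
  nlinarith

section

variable {δ : ℝ} {C : ℕ} (S : Str δ C)

theorem Str.rgL_add (b : ℕ) {s s' : S.U} (hs : s ∈ S.Sb b) (hs' : s' ∈ S.Sb b) : rg (S.L (s + s')) ≤ C * b * b := by
  have h1 : rg (S.L s) ≤ b := by simpa [Str.Sb] using hs
  have h2 : rg (S.L s') ≤ b := by simpa [Str.Sb] using hs'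
  have h3 := rg_of_add S.two (S.L (s + s')) (S.L s)
  have h4 := rg_of_add S.two (S.L (s + s') + S.L s) (S.L s')
  have h5 := S.rL s s'
  calc _ ≤ _ := h3
    _ ≤ (rg (S.L (s + s') + S.L s + S.L s') * rg (S.L s')) * rg (S.L s) := Nat.mul_le_mul_right _ h4
    _ ≤ (C * b) * b := by gcongr

/-- the popular values -/
def Str.V (c : ℝ) (s s' : S.U) : Set S.U :=
  {w | c * (Fintype.card S.U : ℝ) ≤ (((univ : Finset S.U).filter (fun x => (∃ y, (x + s, y) ∈ S.B) ∧
    (∃ y, (x + s', y) ∈ S.B) ∧ ∃ u, w = (S.A1 (x + s) + S.A1 (x + s')) u + (S.c1 (x + s) + S.c1 (x + s')))).card : ℝ)}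

theorem Str.V_card (c : ℝ) (hc : 0 < c) (b : ℕ) {s s' : S.U} (hs : s ∈ S.Sb b) (hs' : s' ∈ S.Sb b) :
    ((S.V c s s').ncard : ℝ) ≤ (C * (C * b * b) : ℕ) / c := by
  classical
  have hn : (0 : ℝ) < (Fintype.card S.U : ℝ) := by
    have : Nonempty S.U := ⟨0⟩
    exact_mod_cast Fintype.card_pos
  set W : Finset S.U := (Set.toFinite (S.V c s s')).toFinset with hW
  have hcard : (S.V c s s').ncard = W.card := Set.ncard_eq_toFinset_card _ _
  let r : S.U → S.U → Prop := fun w x => (∃ y, (x + s, y) ∈ S.B) ∧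
    (∃ y, (x + s', y) ∈ S.B) ∧ ∃ u, w = (S.A1 (x + s) + S.A1 (x + s')) u + (S.c1 (x + s) + S.c1 (x + s'))
  have h1 : ∀ x : S.U, ((W.filter (fun w => r w x)).card) ≤ C * (C * b * b) := by
    intro x
    by_cases hx : (∃ y, (x + s, y) ∈ S.B) ∧ (∃ y, (x + s', y) ∈ S.B)
    · obtain ⟨⟨y, hy⟩, ⟨y', hy'⟩⟩ := hx
      have e1 : (x + s) + (x + s') = s + s' := by
        have := S.two x
        calc (x + s) + (x + s') = (x + x) + (s + s') := by abel
          _ = _ := by rw [this, zero_add]
      have e2 := S.r1 _ hy _ hy'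
      simp only [e1] at e2
      have e3 := rg_of_add S.two (S.A1 (x + s) + S.A1 (x + s')) (S.L (s + s'))
      have e4 : rg (S.A1 (x + s) + S.A1 (x + s')) ≤ C * (C * b * b) :=
        le_trans e3 (Nat.mul_le_mul e2 (S.rgL_add b hs hs'))
      refine le_trans ?_ e4
      unfold rg
      rw [← Set.ncard_coe_finset]
      have hsub : ((W.filter (fun w => r w x) : Finset S.U) : Set S.U) ⊆
          (fun t => t + (S.c1 (x + s) + S.c1 (x + s'))) '' Set.range (S.A1 (x + s) + S.A1 (x + s') : AddMonoid.End S.U) := by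
        intro w hw
        simp only [coe_filter, Set.mem_ofPred_eq] at hw
        obtain ⟨-, -, -, u, hu⟩ := hw
        exact ⟨_, ⟨u, rfl⟩, hu.symm⟩
      exact le_trans (Set.ncard_le_ncard hsub (Set.toFinite _)) (Set.ncard_image_le (Set.toFinite _))
    · have : W.filter (fun w => r w x) = ∅ := by
        rw [Finset.filter_eq_empty_iff]
        intro w _ hr
        exact hx ⟨hr.1, hr.2.1⟩
      rw [this]
      simp
  have h2 : (W.card : ℝ) * (c * (Fintype.card S.U : ℝ)) ≤ (Fintype.card S.U : ℝ) * ((C * (C * b * b) : ℕ) : ℝ) := by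
    calc (W.card : ℝ) * (c * (Fintype.card S.U : ℝ)) = ∑ w ∈ W, (c * (Fintype.card S.U : ℝ)) := by simp
      _ ≤ ∑ w ∈ W, (((univ : Finset S.U).filter (fun x => r w x)).card : ℝ) := by
          refine Finset.sum_le_sum fun w hw => ?_
          have : w ∈ S.V c s s' := by simpa [hW] using hw
          exact this
      _ = ∑ x : S.U, ((W.filter (fun w => r w x)).card : ℝ) := by
          have : ∑ w ∈ W, ((univ : Finset S.U).filter (fun x => r w x)).card
              = ∑ x ∈ (univ : Finset S.U), (W.filter (fun w => r w x)).card := by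
            simp only [Finset.card_filter]
            rw [Finset.sum_comm]
          exact_mod_cast this
      _ ≤ ∑ x : S.U, ((C * (C * b * b) : ℕ) : ℝ) := Finset.sum_le_sum fun x _ => by exact_mod_cast h1 x
      _ = _ := by simp
  rw [hcard, le_div_iff₀ hc]
  have h3 : (W.card : ℝ) * c * (Fintype.card S.U : ℝ) ≤ ((C * (C * b * b) : ℕ) : ℝ) * (Fintype.card S.U : ℝ) := by
    linarith
  exact le_of_mul_le_mul_right h3 hn

/-- the rows through `z` -/
def Str.P (z : S.U) : Finset S.U := (univ : Finset S.U).filter (fun x => (x, x + z) ∈ S.B)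

theorem Str.mem_P {z x : S.U} : x ∈ S.P z ↔ (x, x + z) ∈ S.B := by simp [Str.P]

theorem Str.add_self_add (x z : S.U) : x + (x + z) = z := by
  rw [← add_assoc, S.two, zero_add]

theorem Str.mem_V (c : ℝ) (s s' z : S.U)
    (h : c * (Fintype.card S.U : ℝ) ≤ (((univ : Finset S.U).filter (fun x => x + s ∈ S.P z ∧ x + s' ∈ S.P z)).card : ℝ)) :
    S.A3 z s - S.A3 z s' ∈ S.V c s s' := by
  classical
  refine le_trans h ?_
  have hsub : (univ : Finset S.U).filter (fun x => x + s ∈ S.P z ∧ x + s' ∈ S.P z) ⊆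
      (univ : Finset S.U).filter (fun x => (∃ y, (x + s, y) ∈ S.B) ∧
    (∃ y, (x + s', y) ∈ S.B) ∧ ∃ u, S.A3 z s - S.A3 z s' = (S.A1 (x + s) + S.A1 (x + s')) u
      + (S.c1 (x + s) + S.c1 (x + s'))) := by
    intro x hx
    simp only [mem_filter, mem_univ, true_and, Str.mem_P] at hx ⊢
    refine ⟨⟨_, hx.1⟩, ⟨_, hx.2⟩, z, ?_⟩
    have e1 := S.id2 _ hx.1
    have e2 := S.id2 _ hx.2
    simp only [S.add_self_add] at e1 e2
    have e3 : ∀ u v : S.U, u - v = u + v := fun u v => by
      rw [sub_eq_add_neg, neg_eq_of_add_eq_zero_left (S.two v)]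
    have e4 : (S.A1 (x + s) + S.A1 (x + s')) z + (S.c1 (x + s) + S.c1 (x + s'))
        = (S.A1 (x + s) z + S.c1 (x + s)) + (S.A1 (x + s') z + S.c1 (x + s')) := by
      change S.A1 (x + s) z + S.A1 (x + s') z + (S.c1 (x + s) + S.c1 (x + s')) = _
      abel
    rw [e4, ← e1, ← e2, map_add, map_add, e3]
    have e5 := S.two (S.A3 z x)
    have e6 := S.two (S.c3 z)
    calc S.A3 z s + S.A3 z s' = (S.A3 z s + S.A3 z s') + (S.A3 z x + S.A3 z x) + (S.c3 z + S.c3 z) := by
          rw [e5, e6, add_zero, add_zero]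
      _ = _ := by abel
  exact_mod_cast Finset.card_le_card hsub

/-- the typical `z` -/
def Str.T3 : Set S.U := {z | δ / 2 * (Fintype.card S.U : ℝ) ≤ ((S.P z).card : ℝ)}

theorem Str.T3_line (hδ : 0 < δ) {z : S.U} (hz : z ∈ S.T3) : ∃ p ∈ S.B, p.1 + p.2 = z := by
  have hn : (0 : ℝ) < (Fintype.card S.U : ℝ) := by
    have : Nonempty S.U := ⟨0⟩
    exact_mod_cast Fintype.card_pos
  have h1 : (0 : ℝ) < ((S.P z).card : ℝ) := lt_of_lt_of_le (by positivity) hz
  have h2 : (S.P z).Nonempty := by
    rw [← Finset.card_pos]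
    exact_mod_cast h1
  obtain ⟨x, hx⟩ := h2
  rw [Str.mem_P] at hx
  exact ⟨_, hx, S.add_self_add x z⟩

/-- the typical `z` are dense -/
theorem Str.T3_card (hδ : 0 ≤ δ) [DecidablePred (· ∈ S.T3)] :
    δ / 2 * (Fintype.card S.U : ℝ) ≤ (((univ : Finset S.U).filter (· ∈ S.T3)).card : ℝ) := by
  classical
  have hn : (0 : ℝ) < (Fintype.card S.U : ℝ) := by
    have : Nonempty S.U := ⟨0⟩
    exact_mod_cast Fintype.card_pos
  set n : ℝ := (Fintype.card S.U : ℝ) with hnn
  have h1 : ∑ z : S.U, ((S.P z).card : ℝ) = (S.B.card : ℝ) := by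
    have : ∑ z : S.U, (S.P z).card = S.B.card := by
      have e1 : S.B.card = ∑ z : S.U, (S.B.filter (fun p => p.1 + p.2 = z)).card :=
        Finset.card_eq_sum_card_fiberwise (f := fun p : S.U × S.U => p.1 + p.2) (t := univ) (fun _ _ => by simp)
      rw [e1]
      refine Finset.sum_congr rfl fun z _ => ?_
      refine Finset.card_bij (fun x _ => (x, x + z)) ?_ ?_ ?_
      · intro x hx
        rw [Str.mem_P] at hx
        simp only [mem_filter]
        exact ⟨hx, S.add_self_add x z⟩
      · intro x _ x' _ h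
        exact (Prod.ext_iff.1 h).1
      · rintro ⟨x, y⟩ hp
        simp only [mem_filter] at hp
        obtain ⟨hp1, hp2⟩ := hp
        refine ⟨x, ?_, ?_⟩
        · rw [Str.mem_P, ← hp2, S.add_self_add]
          exact hp1
        · rw [← hp2, S.add_self_add]
    exact_mod_cast this
  have h2 : ∑ z : S.U, ((S.P z).card : ℝ) ≤
      ∑ z : S.U, (δ / 2 * n + (if z ∈ S.T3 then n else 0)) := by
    refine Finset.sum_le_sum fun z _ => ?_
    by_cases hz : z ∈ S.T3
    · simp only [hz, if_true]
      have e1 : ((S.P z).card : ℝ) ≤ n := by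
        rw [hnn]
        exact_mod_cast Finset.card_le_univ _
      have : 0 ≤ δ / 2 * n := by positivity
      linarith
    · simp only [hz, if_false, add_zero]
      have : ¬ (δ / 2 * n ≤ ((S.P z).card : ℝ)) := hz
      linarith
  have h3 : ∑ z : S.U, (δ / 2 * n + (if z ∈ S.T3 then n else 0))
      = n * (δ / 2 * n) + n * (((univ : Finset S.U).filter (· ∈ S.T3)).card : ℝ) := by
    rw [Finset.sum_add_distrib, Finset.sum_const, ← Finset.sum_filter, Finset.sum_const, Finset.card_univ]
    simp only [nsmul_eq_mul]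
    rw [← hnn]
    ring
  have h4 := S.hB
  rw [← hnn] at h4
  rw [h1, h3] at h2
  have h5 : n * (δ / 2 * n) ≤ n * (((univ : Finset S.U).filter (· ∈ S.T3)).card : ℝ) := by nlinarith
  exact le_of_mul_le_mul_left h5 hn

end

end Pool.Agent.helper64.MFJ2
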