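import Mathlib
import Pool.Agent.helper64.MF.JFin2

set_option autoImplicit false

/-!
# (J): the finite step (b)
-/

namespace Pool.Agent.helper64.MFJ2

open Finset

/-- pairs of elements of `T` in one coset of `H` -/
theorem pairs_card {U : Type} [AddCommGroup U] [Fintype U] [DecidableEq U] (H : AddSubgroup U) (T : Finset U)
    (P : Finset (U × U)) (hP : ∀ y ∈ T, ∀ y' ∈ T, y + y' ∈ H → (y, y') ∈ P) (h2 : ∀ u : U, u + u = 0) :
    (T.card : ℝ) ^ 2 ≤ (H.index : ℝ) * (P.card : ℝ) := by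
  classical
  have : Fintype (U ⧸ H) := Fintype.ofFinite _
  have hidx : (H.index : ℝ) = (Fintype.card (U ⧸ H) : ℝ) := by
    rw [AddSubgroup.index, Nat.card_eq_fintype_card]
  let f : U → U ⧸ H := fun u => QuotientAddGroup.mk u
  let t : U ⧸ H → Finset U := fun q => T.filter (fun y => f y = q)
  have h1 : (T.card : ℝ) = ∑ q : U ⧸ H, ((t q).card : ℝ) := by
    have := Finset.card_eq_sum_card_fiberwise (f := f) (s := T) (t := univ) (fun _ _ => by simp)
    rw [this]
    push_cast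
    rfl
  have h3 : ∑ q : U ⧸ H, ((t q).card : ℝ) ^ 2 ≤ (P.card : ℝ) := by
    have e1 : ∑ q : U ⧸ H, ((t q) ×ˢ (t q)).card ≤ P.card := by
      rw [← Finset.card_biUnion]
      · refine Finset.card_le_card ?_
        intro p hp
        simp only [Finset.mem_biUnion, Finset.mem_product, mem_univ, true_and] at hp
        obtain ⟨q, hp1, hp2⟩ := hp
        simp only [t, mem_filter] at hp1 hp2
        refine hP _ hp1.1 _ hp2.1 ?_
        have e2 : f p.1 = f p.2 := hp1.2.trans hp2.2.symm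
        have e3 := QuotientAddGroup.eq.1 e2
        have e4 : -p.1 = p.1 := neg_eq_of_add_eq_zero_left (h2 p.1)
        rwa [e4] at e3
      · intro q _ q' _ hne
        rw [Function.onFun, Finset.disjoint_left]
        intro p hp hp'
        simp only [Finset.mem_product, t, mem_filter] at hp hp'
        exact hne (hp.1.2.symm.trans hp'.1.2)
    have e5 : ∑ q : U ⧸ H, ((t q).card : ℝ) ^ 2 = ((∑ q : U ⧸ H, ((t q) ×ˢ (t q)).card : ℕ) : ℝ) := by
      push_cast
      refine Finset.sum_congr rfl fun q _ => ?_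
      rw [Finset.card_product]
      push_cast
      ring
    rw [e5]
    exact_mod_cast e1
  have h4 := sq_sum_le_card_mul_sum_sq (s := (univ : Finset (U ⧸ H))) (f := fun q => ((t q).card : ℝ))
  rw [h1]
  calc _ ≤ _ := h4
    _ ≤ (Fintype.card (U ⧸ H) : ℝ) * (P.card : ℝ) := by
      rw [Finset.card_univ]
      exact mul_le_mul_of_nonneg_left h3 (by positivity)
    _ = _ := by rw [hidx]

theorem exists_of_sum_le {ι : Type*} [Fintype ι] [Nonempty ι] (f : ι → ℝ) (c : ℝ)
    (h : c * (Fintype.card ι : ℝ) ≤ ∑ i, f i) : ∃ i, c ≤ f i := by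
  by_contra hcon
  push Not at hcon
  have h1 : ∑ i, f i < ∑ _i : ι, c := Finset.sum_lt_sum_of_nonempty univ_nonempty fun i _ => hcon i
  rw [Finset.sum_const, Finset.card_univ, nsmul_eq_mul] at h1
  linarith

section

variable {δ : ℝ} {C : ℕ} (S : Str δ C)

/-- the row of `x` -/
def Str.Bx (x : S.U) : Finset S.U := (univ : Finset S.U).filter (fun y => (x, y) ∈ S.B)

theorem Str.mem_Bx {x y : S.U} : y ∈ S.Bx x ↔ (x, y) ∈ S.B := by simp [Str.Bx]

open Classical in
/-- the typical `x` -/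
noncomputable def Str.X : Finset S.U :=
  (univ : Finset S.U).filter (fun x => δ / 2 * (Fintype.card S.U : ℝ) ≤ ((S.Bx x).card : ℝ))

theorem Str.mem_X {x : S.U} : x ∈ S.X ↔ δ / 2 * (Fintype.card S.U : ℝ) ≤ ((S.Bx x).card : ℝ) := by
  simp [Str.X]

theorem Str.card_pos : (0 : ℝ) < (Fintype.card S.U : ℝ) := by
  have : Nonempty S.U := ⟨0⟩
  exact_mod_cast Fintype.card_pos

theorem Str.X_card (hδ : 0 ≤ δ) : δ / 2 * (Fintype.card S.U : ℝ) ≤ (S.X.card : ℝ) := by
  classical
  have hn := S.card_pos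
  set n : ℝ := (Fintype.card S.U : ℝ) with hnn
  have h1 : ∑ x : S.U, ((S.Bx x).card : ℝ) = (S.B.card : ℝ) := by
    have : ∑ x : S.U, (S.Bx x).card = S.B.card := by
      have e1 : S.B.card = ∑ x : S.U, (S.B.filter (fun p => p.1 = x)).card :=
        Finset.card_eq_sum_card_fiberwise (f := fun p : S.U × S.U => p.1) (t := univ) (fun _ _ => by simp)
      rw [e1]
      refine Finset.sum_congr rfl fun x _ => ?_
      refine Finset.card_bij (fun y _ => (x, y)) ?_ ?_ ?_
      · intro y hy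
        rw [Str.mem_Bx] at hy
        simp only [mem_filter]
        exact ⟨hy, trivial⟩
      · intro y _ y' _ h
        exact (Prod.ext_iff.1 h).2
      · rintro ⟨x', y⟩ hp
        simp only [mem_filter] at hp
        obtain ⟨hp1, hp2⟩ := hp
        subst hp2
        exact ⟨y, S.mem_Bx.2 hp1, rfl⟩
    exact_mod_cast this
  have h2 : ∑ x : S.U, ((S.Bx x).card : ℝ) ≤ ∑ x : S.U, (δ / 2 * n + (if x ∈ S.X then n else 0)) := by
    refine Finset.sum_le_sum fun x _ => ?_
    by_cases hx : x ∈ S.X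
    · simp only [hx, if_true]
      have e1 : ((S.Bx x).card : ℝ) ≤ n := by
        rw [hnn]
        exact_mod_cast Finset.card_le_univ _
      have : 0 ≤ δ / 2 * n := by positivity
      linarith
    · simp only [hx, if_false, add_zero]
      have : ¬ (δ / 2 * n ≤ ((S.Bx x).card : ℝ)) := fun h => hx (S.mem_X.2 h)
      linarith
  have h3 : ∑ x : S.U, (δ / 2 * n + (if x ∈ S.X then n else 0)) = n * (δ / 2 * n) + n * (S.X.card : ℝ) := by
    rw [Finset.sum_add_distrib, Finset.sum_const, Finset.card_univ, Finset.sum_ite_mem]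
    simp only [Finset.univ_inter, Finset.sum_const, nsmul_eq_mul]
    rw [← hnn]
    ring
  have h4 := S.hB
  rw [← hnn] at h4
  rw [h1, h3] at h2
  have h5 : n * (δ / 2 * n) ≤ n * (S.X.card : ℝ) := by nlinarith
  exact le_of_mul_le_mul_left h5 hn

/-- kernels of sums of two typical operators -/
theorem Str.kerD_index (b : ℕ) {s s' x : S.U} (hs : s ∈ S.Sb b) (hs' : s' ∈ S.Sb b) (hx : ∃ y, (x + s, y) ∈ S.B)
    (hx' : ∃ y, (x + s', y) ∈ S.B) :
    (AddMonoidHom.ker (S.A1 (x + s) + S.A1 (x + s') : S.U →+ S.U)).index ≤ C * (C * b * b) := by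
  obtain ⟨y, hy⟩ := hx
  obtain ⟨y', hy'⟩ := hx'
  have e1 : (x + s) + (x + s') = s + s' := by
    have := S.two x
    calc (x + s) + (x + s') = (x + x) + (s + s') := by abel
      _ = _ := by rw [this, zero_add]
  have e2 := S.r1 _ hy _ hy'
  simp only [e1] at e2
  have e3 := rg_of_add S.two (S.A1 (x + s) + S.A1 (x + s')) (S.L (s + s'))
  have e4 : rg (S.A1 (x + s) + S.A1 (x + s')) ≤ C * (C * b * b) :=
    le_trans e3 (Nat.mul_le_mul e2 (S.rgL_add b hs hs'))
  have e5 : (AddMonoidHom.ker (S.A1 (x + s) + S.A1 (x + s') : S.U →+ S.U)).index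
      = Nat.card (AddMonoidHom.range (S.A1 (x + s) + S.A1 (x + s') : S.U →+ S.U)) := AddSubgroup.index_ker _
  rw [e5]
  exact e4

/-- the good `s` for `(x, y, z)` -/
def Str.Good (W' : AddSubgroup S.U) (s0 x y z s : S.U) : Prop :=
  (x + s, y) ∈ S.B ∧ (x + s, x + s + z) ∈ S.B ∧ x + s0 ∈ S.X ∧
    (S.A1 (x + s) + S.A1 (x + s0)) (x + s + y + z) = 0 ∧ x + s + y + z ∈ W'

open Classical in
theorem Str.exists_s0 (hδ : 0 < δ) (A : Finset S.U) (hA : A.Nonempty) :
    ∃ s0 ∈ A, (δ / 2) ^ 2 * (Fintype.card S.U : ℝ) * (A.card : ℝ) ≤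
      ∑ x : S.U, ((A.filter (fun s => x + s ∈ S.X ∧ x + s0 ∈ S.X)).card : ℝ) := by
  have hn := S.card_pos
  set n : ℝ := (Fintype.card S.U : ℝ) with hnn
  let f : S.U → ℝ := fun x => ((A.filter (fun s => x + s ∈ S.X)).card : ℝ)
  have h1 : ∑ x : S.U, f x = (A.card : ℝ) * (S.X.card : ℝ) := by
    have : ∑ x : S.U, (A.filter (fun s => x + s ∈ S.X)).card
        = ∑ s ∈ A, ((univ : Finset S.U).filter (fun x => x + s ∈ S.X)).card := by
      simp only [Finset.card_filter]
      rw [Finset.sum_comm]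
    have e2 : ∀ s ∈ A, ((univ : Finset S.U).filter (fun x => x + s ∈ S.X)).card = S.X.card := by
      intro s _
      refine Finset.card_bij (fun x _ => x + s) ?_ ?_ ?_
      · intro x hx
        simpa using hx
      · intro x _ x' _ h
        exact add_right_cancel h
      · intro x hx
        refine ⟨x + s, ?_, ?_⟩
        · simp only [mem_filter, mem_univ, true_and]
          rwa [add_assoc, S.two, add_zero]
        · rw [add_assoc, S.two, add_zero]
    rw [Finset.sum_congr rfl e2, Finset.sum_const, smul_eq_mul] at this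
    simp only [f]
    exact_mod_cast this
  have h2 : ((A.card : ℝ) * (S.X.card : ℝ)) ^ 2 ≤ n * ∑ x : S.U, (f x) ^ 2 := by
    have := sq_sum_le_card_mul_sum_sq (s := (univ : Finset S.U)) (f := f)
    rw [h1, Finset.card_univ] at this
    exact this
  have h3 : ∑ x : S.U, (f x) ^ 2
      = ∑ s0 ∈ A, ∑ x : S.U, ((A.filter (fun s => x + s ∈ S.X ∧ x + s0 ∈ S.X)).card : ℝ) := by
    rw [Finset.sum_comm]
    refine Finset.sum_congr rfl fun x _ => ?_
    simp only [f]
    have e3 : ∀ s0 ∈ A, ((A.filter (fun s => x + s ∈ S.X ∧ x + s0 ∈ S.X)).card : ℝ)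
        = if x + s0 ∈ S.X then ((A.filter (fun s => x + s ∈ S.X)).card : ℝ) else 0 := by
      intro s0 _
      by_cases h : x + s0 ∈ S.X
      · simp [h]
      · simp [h]
    rw [Finset.sum_congr rfl e3, ← Finset.sum_filter, Finset.sum_const, nsmul_eq_mul, sq]
  have h4 : ∃ s0 ∈ A, (A.card : ℝ) * ∑ x : S.U, ((A.filter (fun s => x + s ∈ S.X ∧ x + s0 ∈ S.X)).card : ℝ)
      ≥ ∑ x : S.U, (f x) ^ 2 := by
    by_contra hcon
    push Not at hcon
    have e4 : ∑ s0 ∈ A, (A.card : ℝ) * ∑ x : S.U, ((A.filter (fun s => x + s ∈ S.X ∧ x + s0 ∈ S.X)).card : ℝ)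
        < ∑ _s0 ∈ A, ∑ x : S.U, (f x) ^ 2 := Finset.sum_lt_sum_of_nonempty hA hcon
    rw [← Finset.mul_sum, ← h3, Finset.sum_const, nsmul_eq_mul] at e4
    exact lt_irrefl _ e4
  obtain ⟨s0, hs0, h5⟩ := h4
  refine ⟨s0, hs0, ?_⟩
  have hApos : (0 : ℝ) < (A.card : ℝ) := by exact_mod_cast hA.card_pos
  have h6 := S.X_card hδ.le
  rw [← hnn] at h6
  have h7 : ((A.card : ℝ) * (δ / 2 * n)) ^ 2 ≤ ((A.card : ℝ) * (S.X.card : ℝ)) ^ 2 := by
    apply pow_le_pow_left₀ (by positivity)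
    exact mul_le_mul_of_nonneg_left h6 hApos.le
  set t1 : ℝ := ∑ x : S.U, ((A.filter (fun s => x + s ∈ S.X ∧ x + s0 ∈ S.X)).card : ℝ) with ht1
  have h8 : ((A.card : ℝ) * (δ / 2 * n)) ^ 2 ≤ n * ((A.card : ℝ) * t1) := by
    calc _ ≤ _ := h7
      _ ≤ _ := h2
      _ ≤ _ := mul_le_mul_of_nonneg_left h5 hn.le
  have h9 : ((δ / 2) ^ 2 * n * (A.card : ℝ)) * (n * (A.card : ℝ)) ≤ t1 * (n * (A.card : ℝ)) := by
    calc _ = ((A.card : ℝ) * (δ / 2 * n)) ^ 2 := by ring
      _ ≤ _ := h8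
      _ = _ := by ring
  exact le_of_mul_le_mul_right h9 (by positivity)

open Classical in
theorem Str.exists_xyz (hδ : 0 < δ) (b K' : ℕ) (W' : AddSubgroup S.U) (hW' : W'.index ≤ K')
    (A : Finset S.U) (hA : A ⊆ S.Sb b) (hne : A.Nonempty) :
    ∃ s0 ∈ A, ∃ x y z : S.U, (δ / 2) ^ 4 * (A.card : ℝ) ≤
      ((K' * (C * (C * b * b)) : ℕ) : ℝ) * ((A.filter (fun s => S.Good W' s0 x y z s)).card : ℝ) := by
  have hn := S.card_pos
  obtain ⟨s0, hs0, h1⟩ := S.exists_s0 hδ A hne
  set n : ℝ := (Fintype.card S.U : ℝ) with hnn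
  set R : ℝ := ((K' * (C * (C * b * b)) : ℕ) : ℝ) with hR
  refine ⟨s0, hs0, ?_⟩
  -- for each typical pair, the number of (y, z)
  have h2 : ∀ x s : S.U, s ∈ A → x + s ∈ S.X → x + s0 ∈ S.X →
      (δ / 2) ^ 2 * n ^ 2 ≤ R * (((univ : Finset (S.U × S.U)).filter (fun p => S.Good W' s0 x p.1 p.2 s)).card : ℝ) := by
    intro x s hs hxs hxs0
    have hxs' := S.mem_X.1 hxs
    have hxs0' := S.mem_X.1 hxs0
    rw [← hnn] at hxs' hxs0'
    have hpos : 0 < δ / 2 * n := by positivity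
    have hy : ∃ y, (x + s, y) ∈ S.B := by
      have : 0 < (S.Bx (x + s)).card := by exact_mod_cast lt_of_lt_of_le hpos hxs'
      obtain ⟨y, hy⟩ := Finset.card_pos.1 this
      exact ⟨y, S.mem_Bx.1 hy⟩
    have hy0 : ∃ y, (x + s0, y) ∈ S.B := by
      have : 0 < (S.Bx (x + s0)).card := by exact_mod_cast lt_of_lt_of_le hpos hxs0'
      obtain ⟨y, hy⟩ := Finset.card_pos.1 this
      exact ⟨y, S.mem_Bx.1 hy⟩
    have hker := S.kerD_index b (hA hs) (hA hs0) hy hy0
    set D : S.U →+ S.U := (S.A1 (x + s) + S.A1 (x + s0) : S.U →+ S.U) with hD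
    set H : AddSubgroup S.U := W' ⊓ D.ker with hH
    have hHi : (H.index : ℝ) ≤ R := by
      have e1 : H.index ≤ W'.index * D.ker.index := AddSubgroup.index_inf_le
      have e2 : H.index ≤ K' * (C * (C * b * b)) := le_trans e1 (Nat.mul_le_mul hW' hker)
      rw [hR]
      exact_mod_cast e2
    let P : Finset (S.U × S.U) := (univ : Finset (S.U × S.U)).filter
      (fun p => p.1 ∈ S.Bx (x + s) ∧ p.2 ∈ S.Bx (x + s) ∧ p.1 + p.2 ∈ H)
    have h3 := pairs_card H (S.Bx (x + s)) P (by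
      intro y hy y' hy' h
      simp only [P, mem_filter, mem_univ, true_and]
      exact ⟨hy, hy', h⟩) S.two
    have h4 : P.card ≤ ((univ : Finset (S.U × S.U)).filter (fun p => S.Good W' s0 x p.1 p.2 s)).card := by
      refine Finset.card_le_card_of_injOn (fun p => (p.1, x + s + p.2)) ?_ ?_
      · intro p hp
        simp only [P, coe_filter, mem_univ, true_and, Set.mem_ofPred_eq] at hp ⊢
        obtain ⟨hp1, hp2, hp3⟩ := hp
        have e3 : x + s + (x + s + p.2) = p.2 := S.add_self_add _ _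
        have e4 : x + s + p.1 + (x + s + p.2) = p.1 + p.2 := by
          calc x + s + p.1 + (x + s + p.2) = (x + s + (x + s + p.2)) + p.1 := by abel
            _ = _ := by rw [e3, add_comm]
        refine ⟨S.mem_Bx.1 hp1, ?_, hxs0, ?_, ?_⟩
        · rw [e3]
          exact S.mem_Bx.1 hp2
        · rw [e4]
          exact (AddSubgroup.mem_inf.1 hp3).2
        · rw [e4]
          exact (AddSubgroup.mem_inf.1 hp3).1
      · intro p _ p' _ h
        have h5 := (Prod.ext_iff.1 h).1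
        have h6 := (Prod.ext_iff.1 h).2
        exact Prod.ext h5 (add_left_cancel h6)
    have h5 : (P.card : ℝ) ≤ (((univ : Finset (S.U × S.U)).filter (fun p => S.Good W' s0 x p.1 p.2 s)).card : ℝ) := by
      exact_mod_cast h4
    have hR0 : 0 ≤ R := by rw [hR]; positivity
    calc (δ / 2) ^ 2 * n ^ 2 = (δ / 2 * n) ^ 2 := by ring
      _ ≤ ((S.Bx (x + s)).card : ℝ) ^ 2 := pow_le_pow_left₀ hpos.le hxs' 2
      _ ≤ (H.index : ℝ) * (P.card : ℝ) := h3
      _ ≤ R * (P.card : ℝ) := mul_le_mul_of_nonneg_right hHi (by positivity)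
      _ ≤ _ := mul_le_mul_of_nonneg_left h5 hR0
  -- sum over x and s
  have h3 : ((δ / 2) ^ 4 * (A.card : ℝ)) * (Fintype.card (S.U × S.U × S.U) : ℝ) ≤
      ∑ q : S.U × S.U × S.U, R * ((A.filter (fun s => S.Good W' s0 q.1 q.2.1 q.2.2 s)).card : ℝ) := by
    have e1 : ∑ q : S.U × S.U × S.U, R * ((A.filter (fun s => S.Good W' s0 q.1 q.2.1 q.2.2 s)).card : ℝ)
        = ∑ x : S.U, ∑ s ∈ A,
          R * (((univ : Finset (S.U × S.U)).filter (fun p => S.Good W' s0 x p.1 p.2 s)).card : ℝ) := by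
      rw [Fintype.sum_prod_type]
      refine Finset.sum_congr rfl fun x _ => ?_
      rw [← Finset.mul_sum, ← Finset.mul_sum]
      congr 1
      have : ∑ p : S.U × S.U, (A.filter (fun s => S.Good W' s0 x p.1 p.2 s)).card
          = ∑ s ∈ A, ((univ : Finset (S.U × S.U)).filter (fun p => S.Good W' s0 x p.1 p.2 s)).card := by
        simp only [Finset.card_filter]
        rw [Finset.sum_comm]
      exact_mod_cast this
    rw [e1]
    have e2 : ∀ x : S.U, (δ / 2) ^ 2 * n ^ 2 * ((A.filter (fun s => x + s ∈ S.X ∧ x + s0 ∈ S.X)).card : ℝ) ≤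
        ∑ s ∈ A, R * (((univ : Finset (S.U × S.U)).filter (fun p => S.Good W' s0 x p.1 p.2 s)).card : ℝ) := by
      intro x
      calc _ = ∑ s ∈ A.filter (fun s => x + s ∈ S.X ∧ x + s0 ∈ S.X), (δ / 2) ^ 2 * n ^ 2 := by
            rw [Finset.sum_const, nsmul_eq_mul]; ring
        _ ≤ ∑ s ∈ A.filter (fun s => x + s ∈ S.X ∧ x + s0 ∈ S.X),
            R * (((univ : Finset (S.U × S.U)).filter (fun p => S.Good W' s0 x p.1 p.2 s)).card : ℝ) := by
            refine Finset.sum_le_sum fun s hs => ?_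
            rw [mem_filter] at hs
            exact h2 x s hs.1 hs.2.1 hs.2.2
        _ ≤ _ := by
            refine Finset.sum_le_sum_of_subset_of_nonneg (Finset.filter_subset _ _) fun s _ _ => ?_
            rw [hR]
            positivity
    calc _ = (δ / 2) ^ 2 * n ^ 2 * ((δ / 2) ^ 2 * n * (A.card : ℝ)) := by
          rw [Fintype.card_prod, Fintype.card_prod]
          push_cast
          rw [← hnn]
          ring
      _ ≤ (δ / 2) ^ 2 * n ^ 2 * ∑ x : S.U, ((A.filter (fun s => x + s ∈ S.X ∧ x + s0 ∈ S.X)).card : ℝ) :=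
          mul_le_mul_of_nonneg_left h1 (by positivity)
      _ = ∑ x : S.U, (δ / 2) ^ 2 * n ^ 2 * ((A.filter (fun s => x + s ∈ S.X ∧ x + s0 ∈ S.X)).card : ℝ) := by
          rw [Finset.mul_sum]
      _ ≤ _ := Finset.sum_le_sum fun x _ => e2 x
  have : Nonempty S.U := ⟨0⟩
  obtain ⟨q, hq⟩ := exists_of_sum_le _ _ h3
  exact ⟨q.1, q.2.1, q.2.2, hq⟩

end

/-- **the finite step (b)** -/
theorem stmtB : StmtB := by
  classical
  intro δ C b hδ
  refine ⟨C * C * C * C, ?_⟩
  intro m K'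
  obtain ⟨N0, hN0⟩ := exists_nat_ge ((K' * (C * (C * b * b)) : ℕ) * (m + 1) / (δ / 2) ^ 4 : ℝ)
  refine ⟨K' * (N0 + 1) + 1, ?_⟩
  intro S A W' hW' hA hAc
  -- restrict to one coset
  have : Fintype (S.U ⧸ W') := Fintype.ofFinite _
  have hidx : Fintype.card (S.U ⧸ W') ≤ K' := by
    rw [← Nat.card_eq_fintype_card]
    exact hW'
  obtain ⟨q, hq⟩ : ∃ q : S.U ⧸ W', N0 + 1 ≤ (A.filter (fun s => (QuotientAddGroup.mk s : S.U ⧸ W') = q)).card := by
    by_contra hcon
    push Not at hcon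
    have e1 : A.card = ∑ q : S.U ⧸ W', (A.filter (fun s => (QuotientAddGroup.mk s : S.U ⧸ W') = q)).card :=
      Finset.card_eq_sum_card_fiberwise (f := fun s => (QuotientAddGroup.mk s : S.U ⧸ W')) (t := univ)
        (fun _ _ => by simp)
    have e2 : A.card ≤ ∑ _q : S.U ⧸ W', (N0 + 1) := by
      rw [e1]
      exact Finset.sum_le_sum fun q _ => (hcon q).le
    rw [Finset.sum_const, Finset.card_univ, smul_eq_mul] at e2
    have e3 : Fintype.card (S.U ⧸ W') * (N0 + 1) ≤ K' * (N0 + 1) := Nat.mul_le_mul_right _ hidx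
    omega
  set A' := A.filter (fun s => (QuotientAddGroup.mk s : S.U ⧸ W') = q) with hA'
  have hA'A : A' ⊆ A := Finset.filter_subset _ _
  have hne : A'.Nonempty := Finset.card_pos.1 (by omega)
  obtain ⟨s0, hs0, x, y, z, hcount⟩ := S.exists_xyz hδ b K' W' hW' A' (hA'A.trans hA) hne
  set I := A'.filter (fun s => S.Good W' s0 x y z s) with hI
  -- the size of I
  have hδ4 : 0 < (δ / 2) ^ 4 := by positivity
  set R : ℝ := ((K' * (C * (C * b * b)) : ℕ) : ℝ) with hR
  have hIc : m + 1 ≤ I.card := by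
    by_contra hcon
    have hcon' : I.card ≤ m := by omega
    have e1 : (N0 + 1 : ℝ) ≤ (A'.card : ℝ) := by exact_mod_cast hq
    have e2 : R * (m + 1) ≤ N0 * (δ / 2) ^ 4 := by
      rw [div_le_iff₀ hδ4] at hN0
      exact hN0
    have e3 : R * (I.card : ℝ) ≤ R * (m + 1) := by
      have : (I.card : ℝ) ≤ m := by exact_mod_cast hcon'
      have hR0 : 0 ≤ R := by rw [hR]; positivity
      nlinarith
    have e4 : (δ / 2) ^ 4 * (N0 + 1) ≤ (δ / 2) ^ 4 * (A'.card : ℝ) := mul_le_mul_of_nonneg_left e1 hδ4.le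
    nlinarith
  have hIA' : ∀ s ∈ I, s ∈ A' := fun s hs => (mem_filter.1 hs).1
  have hIg : ∀ s ∈ I, S.Good W' s0 x y z s := fun s hs => (mem_filter.1 hs).2
  obtain ⟨s1, hs1⟩ : I.Nonempty := Finset.card_pos.1 (by omega)
  obtain ⟨g1, g2, g3, g4, g5⟩ := hIg s1 hs1
  -- a partner of x0
  have hpos : 0 < δ / 2 * (Fintype.card S.U : ℝ) := by
    have := S.card_pos
    positivity
  obtain ⟨y1, hy1⟩ : ∃ y1, (x + s0, y1) ∈ S.B := by
    have : 0 < (S.Bx (x + s0)).card := by exact_mod_cast lt_of_lt_of_le hpos (S.mem_X.1 g3)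
    obtain ⟨y1, hy1⟩ := Finset.card_pos.1 this
    exact ⟨y1, S.mem_Bx.1 hy1⟩
  set x0 := x + s0 with hx0
  refine ⟨I, S.A2 y + S.A3 z + S.A1 x0, x0 + y + z,
    S.φ x + S.c0 + S.A2 y x + S.c2 y + S.A1 x0 (x + y + z) + S.A3 z x + S.c3 z, ?_, by omega, ?_, ?_, ?_⟩
  · exact fun s hs => hA'A (hIA' s hs)
  · intro s hs
    obtain ⟨k1, k2, k3, k4, k5⟩ := hIg s hs
    have e1 := S.id1 _ k1
    have e2 := S.id2 _ k2
    simp only [S.add_self_add] at e1 e2
    -- D (x + s + y + z) = 0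
    have e3 : S.A1 (x + s) (x + s + y + z) = S.A1 x0 (x + s + y + z) := by
      have : S.A1 (x + s) (x + s + y + z) + S.A1 x0 (x + s + y + z) = 0 := k4
      calc S.A1 (x + s) (x + s + y + z)
          = S.A1 (x + s) (x + s + y + z) + (S.A1 x0 (x + s + y + z) + S.A1 x0 (x + s + y + z)) := by
            rw [S.two, add_zero]
        _ = (S.A1 (x + s) (x + s + y + z) + S.A1 x0 (x + s + y + z)) + S.A1 x0 (x + s + y + z) := by abel
        _ = _ := by rw [this, zero_add]
    have e4 : S.A1 (x + s) (x + s + y) = S.A1 x0 (x + s + y + z) + (S.A3 z (x + s) + S.c3 z + S.c1 (x + s)) := by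
      have f1 : S.A1 (x + s) (x + s + y) = S.A1 (x + s) (x + s + y + z) + S.A1 (x + s) z := by
        rw [← map_add]
        congr 1
        rw [add_assoc (x + s + y), S.two, add_zero]
      have f2 : S.A1 (x + s) z = S.A3 z (x + s) + S.c3 z + S.c1 (x + s) := by
        rw [e2, add_assoc, S.two, add_zero]
      rw [f1, e3, f2]
    rw [e4] at e1
    have e5 : S.φ (x + s) = (S.A2 y + S.A3 z + S.A1 x0) s +
        (S.c0 + S.A2 y x + S.c2 y + S.A1 x0 (x + y + z) + S.A3 z x + S.c3 z) := by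
      have g0 : S.φ (x + s) = S.φ (x + s) + S.c0 + S.c0 := by rw [add_assoc, S.two, add_zero]
      rw [g0, e1]
      have g1' : S.A1 x0 (x + s + y + z) = S.A1 x0 s + S.A1 x0 (x + y + z) := by
        rw [← map_add]; congr 1; abel
      have g2' : (S.A2 y + S.A3 z + S.A1 x0) s = S.A2 y s + S.A3 z s + S.A1 x0 s := rfl
      have m1 : S.A2 y (x + s) = S.A2 y x + S.A2 y s := map_add _ _ _
      have m2 : S.A3 z (x + s) = S.A3 z x + S.A3 z s := map_add _ _ _
      rw [g1', g2', m1, m2]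
      have g3' := S.two (S.c1 (x + s))
      calc _ = (S.A2 y s + S.A3 z s + S.A1 x0 s) +
          (S.c0 + S.A2 y x + S.c2 y + S.A1 x0 (x + y + z) + S.A3 z x + S.c3 z) + (S.c1 (x + s) + S.c1 (x + s)) := by
            abel
        _ = _ := by rw [g3', add_zero]
    have e6 : S.φ s = S.φ x + S.φ (x + s) := by
      rw [map_add, ← add_assoc, S.two, zero_add]
    rw [e6, e5]
    abel
  · -- the operator
    have r0 := S.r0 _ hy1
    have r2 := S.r2 _ g1 _ hy1
    have r3 := S.r3 _ g2 _ hy1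
    have rl := S.rL (y + y1) (z + (x0 + y1))
    simp only [S.add_self_add] at r3
    have hv : y + y1 + (z + (x0 + y1)) = x0 + y + z := by
      calc y + y1 + (z + (x0 + y1)) = x0 + y + z + (y1 + y1) := by abel
        _ = _ := by rw [S.two, add_zero]
    rw [hv] at rl
    simp only at r0 r2
    have htwo : ∀ T : AddMonoid.End S.U, T + T = 0 := by
      intro T
      apply AddMonoidHom.ext
      intro u
      exact S.two (T u)
    have hsum : S.A2 y + S.A3 z + S.A1 x0 + S.L (x0 + y + z)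
        = ((S.A1 x0 + S.A2 y1 + S.A3 (x0 + y1)) + (S.A2 y + S.A2 y1 + S.L (y + y1))
          + (S.A3 z + S.A3 (x0 + y1) + S.L (z + (x0 + y1))))
          + (S.L (x0 + y + z) + S.L (y + y1) + S.L (z + (x0 + y1))) := by
      have t1 := htwo (S.A2 y1)
      have t2 := htwo (S.A3 (x0 + y1))
      have t3 := htwo (S.L (y + y1))
      have t4 := htwo (S.L (z + (x0 + y1)))
      calc _ = S.A2 y + S.A3 z + S.A1 x0 + S.L (x0 + y + z) + (S.A2 y1 + S.A2 y1)
            + (S.A3 (x0 + y1) + S.A3 (x0 + y1)) + (S.L (y + y1) + S.L (y + y1))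
            + (S.L (z + (x0 + y1)) + S.L (z + (x0 + y1))) := by
            rw [t1, t2, t3, t4, add_zero, add_zero, add_zero, add_zero]
        _ = _ := by abel
    rw [hsum]
    calc _ ≤ rg ((S.A1 x0 + S.A2 y1 + S.A3 (x0 + y1)) + (S.A2 y + S.A2 y1 + S.L (y + y1))
          + (S.A3 z + S.A3 (x0 + y1) + S.L (z + (x0 + y1)))) * C :=
          le_trans (rg_add _ _) (Nat.mul_le_mul_left _ rl)
      _ ≤ (rg ((S.A1 x0 + S.A2 y1 + S.A3 (x0 + y1)) + (S.A2 y + S.A2 y1 + S.L (y + y1))) * C) * C :=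
          Nat.mul_le_mul_right _ (le_trans (rg_add _ _) (Nat.mul_le_mul_left _ r3))
      _ ≤ (C * C * C) * C := by
          refine Nat.mul_le_mul_right _ (Nat.mul_le_mul_right _ ?_)
          exact le_trans (rg_add _ _) (Nat.mul_le_mul r0 r2)
      _ = _ := by ring
  · -- v ∈ W'
    have h1 : (QuotientAddGroup.mk s1 : S.U ⧸ W') = q := (mem_filter.1 (hIA' s1 hs1)).2
    have h2 : (QuotientAddGroup.mk s0 : S.U ⧸ W') = q := (mem_filter.1 hs0).2
    have h3 := QuotientAddGroup.eq.1 (h1.trans h2.symm)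
    have h4 : -s1 = s1 := neg_eq_of_add_eq_zero_left (S.two s1)
    rw [h4] at h3
    have h5 : x0 + y + z = (x + s1 + y + z) + (s1 + s0) := by
      rw [hx0]
      calc x + s0 + y + z = x + s0 + y + z + (s1 + s1) := by rw [S.two, add_zero]
        _ = _ := by abel
    rw [h5]
    exact W'.add_mem g5 h3

end Pool.Agent.helper64.MFJ2
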