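import Mathlib

set_option autoImplicit false

/-!
# Ultrapowers modulo constants

`Q` is the group of sequences `(i, j) ↦ f i j ∈ U j` modulo those which, for most `i`, do not depend on `i` (for most
`j`).  Endomorphisms of the groups `U j` act on `Q`; those of bounded range act as zero and those with bounded kernel
act injectively.
-/

namespace Pool.Agent.helper64.MFJ

open Filter

/-- for an ultrafilter, a finite disjunction holds eventually iff one of the members does -/
theorem ultra_exists {α ι : Type*} [Finite ι] (F : Ultrafilter α) (p : ι → α → Prop)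
    (h : ∀ᶠ a in (F : Filter α), ∃ k, p k a) : ∃ k, ∀ᶠ a in (F : Filter α), p k a := by
  by_contra hcon
  have h1 : ∀ k, ∀ᶠ a in (F : Filter α), ¬ p k a := by
    intro k
    exact Ultrafilter.eventually_not.2 (fun h' => hcon ⟨k, h'⟩)
  have h2 : ∀ᶠ a in (F : Filter α), ∀ k, ¬ p k a := Filter.eventually_all.2 h1
  obtain ⟨a, ha1, ha2⟩ := (h.and h2).exists
  obtain ⟨k, hk⟩ := ha1
  exact ha2 k hk

section

variable {U : ℕ → Type} [∀ j, AddCommGroup (U j)]

/-- pigeonhole for sequences with values in bounded sets -/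
theorem ultra_pigeon (F : Ultrafilter ℕ) (C : ℕ) (S : ∀ j, Set (U j)) (hfin : ∀ j, (S j).Finite)
    (hS : ∀ᶠ j in (F : Filter ℕ), (S j).ncard ≤ C)
    (w : ℕ → ∀ j, U j) (hw : ∀ᶠ i in (F : Filter ℕ), ∀ᶠ j in (F : Filter ℕ), w i j ∈ S j) :
    ∃ c : ∀ j, U j, ∀ᶠ i in (F : Filter ℕ), ∀ᶠ j in (F : Filter ℕ), w i j = c j := by
  classical
  -- enumerations
  have he : ∀ j, ∃ e : Fin C → U j, (S j).ncard ≤ C → ∀ x ∈ S j, ∃ k, e k = x := by
    intro j
    by_cases hc : (S j).ncard ≤ C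
    · have hf := hfin j
      let T : Finset (U j) := hf.toFinset
      have hT : T.card ≤ C := by
        have : (S j).ncard = T.card := by
          rw [Set.ncard_eq_toFinset_card (S j) hf]
        omega
      refine ⟨fun k => if h : (k : ℕ) < T.card then (T.equivFin.symm ⟨k, h⟩ : U j) else 0, ?_⟩
      intro _ x hx
      have hxT : x ∈ T := by simpa [T] using hx
      let k := T.equivFin ⟨x, hxT⟩
      refine ⟨⟨k, lt_of_lt_of_le k.2 hT⟩, ?_⟩
      simp [k]
    · exact ⟨fun _ => 0, fun h => absurd h hc⟩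
  choose e he using he
  have h1 : ∀ᶠ i in (F : Filter ℕ), ∃ k : Fin C, ∀ᶠ j in (F : Filter ℕ), w i j = e j k := by
    filter_upwards [hw] with i hi
    apply ultra_exists F (fun (k : Fin C) j => w i j = e j k)
    filter_upwards [hi, hS] with j hj hj2
    obtain ⟨k, hk⟩ := he j hj2 _ hj
    exact ⟨k, hk.symm⟩
  obtain ⟨k, hk⟩ := ultra_exists F (fun (k : Fin C) i => ∀ᶠ j in (F : Filter ℕ), w i j = e j k) h1
  exact ⟨fun j => e j k, hk⟩

/-- sequences which are constant for most `i` -/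
def Cst (U : ℕ → Type) [∀ j, AddCommGroup (U j)] (F : Ultrafilter ℕ) : AddSubgroup (ℕ → ∀ j, U j) where
  carrier := {f | ∃ c : ∀ j, U j, ∀ᶠ i in (F : Filter ℕ), ∀ᶠ j in (F : Filter ℕ), f i j = c j}
  zero_mem' := ⟨0, Filter.Eventually.of_forall fun i => Filter.Eventually.of_forall fun j => rfl⟩
  add_mem' := by
    rintro f g ⟨c, hc⟩ ⟨d, hd⟩
    refine ⟨c + d, ?_⟩
    filter_upwards [hc, hd] with i h1 h2
    filter_upwards [h1, h2] with j h3 h4
    simp [h3, h4]
  neg_mem' := by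
    rintro f ⟨c, hc⟩
    refine ⟨-c, ?_⟩
    filter_upwards [hc] with i h1
    filter_upwards [h1] with j h3
    simp [h3]

theorem mem_Cst {F : Ultrafilter ℕ} {f : ℕ → ∀ j, U j} :
    f ∈ Cst U F ↔ ∃ c : ∀ j, U j, ∀ᶠ i in (F : Filter ℕ), ∀ᶠ j in (F : Filter ℕ), f i j = c j := Iff.rfl

/-- the ultrapower modulo constants -/
abbrev Q (U : ℕ → Type) [∀ j, AddCommGroup (U j)] (F : Ultrafilter ℕ) : Type := (ℕ → ∀ j, U j) ⧸ Cst U F

/-- the action on sequences -/
def mapSeq (T : ∀ j, AddMonoid.End (U j)) : (ℕ → ∀ j, U j) →+ (ℕ → ∀ j, U j) where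
  toFun f := fun i j => T j (f i j)
  map_zero' := by ext i j; simp
  map_add' f g := by ext i j; simp

theorem mapSeq_apply (T : ∀ j, AddMonoid.End (U j)) (f : ℕ → ∀ j, U j) (i j : ℕ) :
    mapSeq T f i j = T j (f i j) := rfl

theorem mapSeq_le (F : Ultrafilter ℕ) (T : ∀ j, AddMonoid.End (U j)) :
    Cst U F ≤ (Cst U F).comap (mapSeq T) := by
  rintro f ⟨c, hc⟩
  refine ⟨fun j => T j (c j), ?_⟩
  filter_upwards [hc] with i h1
  filter_upwards [h1] with j h3
  simp [mapSeq, h3]

/-- the action of the endomorphisms on `Q` -/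
def act (F : Ultrafilter ℕ) : (∀ j, AddMonoid.End (U j)) →+* AddMonoid.End (Q U F) where
  toFun T := QuotientAddGroup.map (Cst U F) (Cst U F) (mapSeq T) (mapSeq_le F T)
  map_one' := by
    apply AddMonoidHom.ext
    intro q
    induction q using QuotientAddGroup.induction_on with
    | H f => rfl
  map_mul' S T := by
    apply AddMonoidHom.ext
    intro q
    induction q using QuotientAddGroup.induction_on with
    | H f => rfl
  map_zero' := by
    apply AddMonoidHom.ext
    intro q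
    induction q using QuotientAddGroup.induction_on with
    | H f => rfl
  map_add' S T := by
    apply AddMonoidHom.ext
    intro q
    induction q using QuotientAddGroup.induction_on with
    | H f => rfl

/-- the class of a sequence -/
def cl (F : Ultrafilter ℕ) (f : ℕ → ∀ j, U j) : Q U F := QuotientAddGroup.mk f

theorem act_cl (F : Ultrafilter ℕ) (T : ∀ j, AddMonoid.End (U j)) (f : ℕ → ∀ j, U j) :
    act F T (cl F f) = cl F (fun i j => T j (f i j)) := rfl

theorem cl_surj (F : Ultrafilter ℕ) (q : Q U F) : ∃ f, cl F f = q := QuotientAddGroup.mk_surjective q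

theorem cl_add (F : Ultrafilter ℕ) (f g : ℕ → ∀ j, U j) : cl F (f + g) = cl F f + cl F g := rfl

theorem cl_eq_zero {F : Ultrafilter ℕ} {f : ℕ → ∀ j, U j} : cl F f = 0 ↔ f ∈ Cst U F :=
  QuotientAddGroup.eq_zero_iff f

theorem cl_eq {F : Ultrafilter ℕ} {f g : ℕ → ∀ j, U j} : cl F f = cl F g ↔ f - g ∈ Cst U F := by
  rw [← cl_eq_zero]
  change _ ↔ QuotientAddGroup.mk (f - g) = (0 : Q U F)
  rw [QuotientAddGroup.mk_sub, sub_eq_zero]
  rfl

variable [∀ j, Finite (U j)]

/-- bounded range: acts as zero -/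
theorem act_small (F : Ultrafilter ℕ) (T : ∀ j, AddMonoid.End (U j)) (C : ℕ)
    (hT : ∀ᶠ j in (F : Filter ℕ), (Set.range (T j)).ncard ≤ C) : act F T = 0 := by
  ext q
  obtain ⟨f, rfl⟩ := cl_surj F q
  rw [act_cl]
  change cl F _ = 0
  rw [cl_eq_zero]
  exact ultra_pigeon F C (fun j => Set.range (T j)) (fun j => Set.toFinite _) hT _
    (Filter.Eventually.of_forall fun i => Filter.Eventually.of_forall fun j => ⟨f i j, rfl⟩)

/-- bounded kernel: acts injectively -/
theorem act_inj (F : Ultrafilter ℕ) (T : ∀ j, AddMonoid.End (U j)) (C : ℕ)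
    (hT : ∀ᶠ j in (F : Filter ℕ), ({x | T j x = 0} : Set (U j)).ncard ≤ C) (q : Q U F) (hq : act F T q = 0) :
    q = 0 := by
  obtain ⟨f, rfl⟩ := cl_surj F q
  rw [act_cl, cl_eq_zero, mem_Cst] at hq
  obtain ⟨c, hc⟩ := hq
  obtain ⟨i0, hi0⟩ := hc.exists
  have h1 : ∀ᶠ i in (F : Filter ℕ), ∀ᶠ j in (F : Filter ℕ), (f i j - f i0 j) ∈ ({x | T j x = 0} : Set (U j)) := by
    filter_upwards [hc] with i hi
    filter_upwards [hi, hi0] with j h1 h2
    simp [h1, h2]
  obtain ⟨d, hd⟩ := ultra_pigeon F C (fun j => ({x | T j x = 0} : Set (U j))) (fun j => Set.toFinite _) hT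
    (fun i j => f i j - f i0 j) h1
  rw [cl_eq_zero, mem_Cst]
  refine ⟨fun j => d j + f i0 j, ?_⟩
  filter_upwards [hd] with i hi
  filter_upwards [hi] with j hj
  rw [← hj]
  simp

end

/-- the class of an injective sequence is not zero -/
theorem cl_ne_zero {U : ℕ → Type} [∀ j, AddCommGroup (U j)] (F : Ultrafilter ℕ) (hF : (F : Filter ℕ) ≤ Filter.cofinite)
    (y : ℕ → ∀ j, U j) (hy : ∀ i i', i ≠ i' → ∀ᶠ j in (F : Filter ℕ), y i j ≠ y i' j) : cl F y ≠ 0 := by
  intro h
  rw [cl_eq_zero, mem_Cst] at h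
  obtain ⟨c, hc⟩ := h
  obtain ⟨i0, hi0⟩ := hc.exists
  have h1 : ∀ᶠ i in (F : Filter ℕ), i ≠ i0 := by
    have : ({i0}ᶜ : Set ℕ) ∈ (F : Filter ℕ) := hF (by simp)
    filter_upwards [this] with i hi
    simpa using hi
  obtain ⟨i1, hi1, hne⟩ := (hc.and h1).exists
  obtain ⟨j, hj⟩ := ((hi0.and hi1).and (hy i1 i0 hne)).exists
  exact hj.2 (by rw [hj.1.1, hj.1.2])

/-- iterated ultrafilter: cliques of any size -/
theorem ultra_clique (F : Ultrafilter ℕ) (p : ℕ → ℕ → Prop)
    (h : ∀ᶠ i in (F : Filter ℕ), ∀ᶠ i' in (F : Filter ℕ), p i i') :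
    ∃ f : ℕ → ℕ, ∀ m n, m < n → p (f m) (f n) := by
  obtain ⟨f, -, hf⟩ := exists_seq_of_forall_finset_exists
    (fun i => ∀ᶠ i' in (F : Filter ℕ), p i i') (fun i i' => p i i') (by
      intro s hs
      have h1 : ∀ᶠ i' in (F : Filter ℕ), ∀ x ∈ s, p x i' := by
        rw [Filter.eventually_all_finset]
        exact fun x hx => hs x hx
      obtain ⟨y, hy1, hy2⟩ := (h.and h1).exists
      exact ⟨y, hy1, hy2⟩)
  exact ⟨f, hf⟩

/-- a sequence of classes which is bounded on pairs takes finitely many values -/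
theorem finite_of_pairs {U : ℕ → Type} [∀ j, AddCommGroup (U j)] (F : Ultrafilter ℕ)
    (N : ℕ) (V : ℕ → ℕ → ∀ j, Set (U j)) (hVf : ∀ i i' j, (V i i' j).Finite) (hV : ∀ i i' j, (V i i' j).ncard ≤ N)
    (G : Set (ℕ → ∀ j, U j))
    (hG : ∀ g ∈ G, ∀ᶠ i in (F : Filter ℕ), ∀ᶠ i' in (F : Filter ℕ), ∀ᶠ j in (F : Filter ℕ),
      g i j - g i' j ∈ V i i' j) :
    ((cl F) '' G).Finite := by
  classical
  by_contra hinf
  obtain ⟨t, ht1, ht2⟩ := Set.Infinite.exists_subset_card_eq hinf (N + 1)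
  -- choose representatives
  have h1 : ∀ q : t, ∃ g ∈ G, cl F g = q := by
    rintro ⟨q, hq⟩
    obtain ⟨g, hg, hgq⟩ := ht1 hq
    exact ⟨g, hg, hgq⟩
  choose g hgG hgq using h1
  have h2 : ∀ q q' : t, q ≠ q' → ∀ᶠ i in (F : Filter ℕ), ∀ᶠ i' in (F : Filter ℕ), ∀ᶠ j in (F : Filter ℕ),
      g q i j - g q' i j ≠ g q i' j - g q' i' j := by
    intro q q' hne
    by_contra hcon
    rw [← Ultrafilter.eventually_not] at hcon
    obtain ⟨i0, hi0⟩ := hcon.exists
    rw [← Ultrafilter.eventually_not] at hi0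
    apply hne
    apply Subtype.ext
    rw [← hgq q, ← hgq q', cl_eq, mem_Cst]
    refine ⟨fun j => g q i0 j - g q' i0 j, ?_⟩
    filter_upwards [hi0] with i hi
    rw [← Ultrafilter.eventually_not] at hi
    filter_upwards [hi] with j hj
    push Not at hj
    exact hj.symm
  have h3 : ∀ᶠ i in (F : Filter ℕ), ∀ᶠ i' in (F : Filter ℕ), ∀ᶠ j in (F : Filter ℕ),
      (∀ q : t, g q i j - g q i' j ∈ V i i' j) ∧
      ∀ q q' : t, q ≠ q' → g q i j - g q' i j ≠ g q i' j - g q' i' j := by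
    have e1 : ∀ᶠ i in (F : Filter ℕ), ∀ q : t, ∀ᶠ i' in (F : Filter ℕ), ∀ᶠ j in (F : Filter ℕ),
        g q i j - g q i' j ∈ V i i' j := Filter.eventually_all.2 fun q => hG (g q) (hgG q)
    have e2 : ∀ᶠ i in (F : Filter ℕ), ∀ q q' : t, q ≠ q' → ∀ᶠ i' in (F : Filter ℕ), ∀ᶠ j in (F : Filter ℕ),
        g q i j - g q' i j ≠ g q i' j - g q' i' j := by
      refine Filter.eventually_all.2 fun q => Filter.eventually_all.2 fun q' => ?_
      by_cases hne : q = q'
      · exact Filter.Eventually.of_forall fun i h => absurd hne h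
      · filter_upwards [h2 q q' hne] with i hi _ using hi
    filter_upwards [e1, e2] with i hi1 hi2
    have e3 : ∀ᶠ i' in (F : Filter ℕ), ∀ q : t, ∀ᶠ j in (F : Filter ℕ),
        g q i j - g q i' j ∈ V i i' j := Filter.eventually_all.2 hi1
    have e4 : ∀ᶠ i' in (F : Filter ℕ), ∀ q q' : t, q ≠ q' → ∀ᶠ j in (F : Filter ℕ),
        g q i j - g q' i j ≠ g q i' j - g q' i' j := by
      refine Filter.eventually_all.2 fun q => Filter.eventually_all.2 fun q' => ?_
      by_cases hne : q = q'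
      · exact Filter.Eventually.of_forall fun i h => absurd hne h
      · filter_upwards [hi2 q q' hne] with i' hi' _ using hi'
    filter_upwards [e3, e4] with i' hi3 hi4
    have e5 : ∀ᶠ j in (F : Filter ℕ), ∀ q : t, g q i j - g q i' j ∈ V i i' j := Filter.eventually_all.2 hi3
    have e6 : ∀ᶠ j in (F : Filter ℕ), ∀ q q' : t, q ≠ q' →
        g q i j - g q' i j ≠ g q i' j - g q' i' j := by
      refine Filter.eventually_all.2 fun q => Filter.eventually_all.2 fun q' => ?_
      by_cases hne : q = q'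
      · exact Filter.Eventually.of_forall fun i h => absurd hne h
      · filter_upwards [hi4 q q' hne] with j hj _ using hj
    exact e5.and e6
  obtain ⟨i, hi⟩ := h3.exists
  obtain ⟨i', hi'⟩ := hi.exists
  obtain ⟨j, hj1, hj2⟩ := hi'.exists
  have hinj : Function.Injective (fun q : t => g q i j - g q i' j) := by
    intro q q' hqq
    by_contra hne
    apply hj2 q q' hne
    have h4 : g q i j - g q i' j = g q' i j - g q' i' j := hqq
    have h5 : g q i j - g q' i j - (g q i' j - g q' i' j) = 0 := by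
      have : g q i j - g q' i j - (g q i' j - g q' i' j)
          = (g q i j - g q i' j) - (g q' i j - g q' i' j) := by abel
      rw [this, h4, sub_self]
    exact sub_eq_zero.1 h5
  have hcard : (Set.range (fun q : t => g q i j - g q i' j)).ncard ≤ N := by
    refine le_trans (Set.ncard_le_ncard ?_ (hVf i i' j)) (hV i i' j)
    rintro _ ⟨q, rfl⟩
    exact hj1 q
  have hcard2 : (Set.range (fun q : t => g q i j - g q i' j)).ncard = N + 1 := by
    rw [← Set.image_univ, Set.ncard_image_of_injective _ hinj, Set.ncard_univ, Nat.card_eq_fintype_card,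
      Fintype.card_coe, ht2]
  omega

/-- the algebra of (J) -/
theorem alg {G : Type*} [AddCommGroup G] (a Φ : AddMonoid.End G) (Y : G) (hY : Y ≠ 0)
    (hΦ : Function.Injective Φ) (hΦ1 : ∀ q, Φ q = q → q = 0) (hc : ∀ q, Φ (a q) = a (a (Φ q))) (hS : Φ Y = a Y)
    (hfin : (Set.range fun t : ℕ => (a ^ (2 ^ t)) Y).Finite) : False := by
  have hpow : ∀ m n : ℕ, (a ^ (m + n)) Y = (a ^ m) ((a ^ n) Y) := by
    intro m n
    rw [pow_add]
    rfl
  -- step 1
  obtain ⟨t, t', htt, heq⟩ : ∃ t t' : ℕ, t < t' ∧ (a ^ (2 ^ t)) Y = (a ^ (2 ^ t')) Y := by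
    by_contra hcon
    push Not at hcon
    have hinj : Function.Injective (fun t : ℕ => (a ^ (2 ^ t)) Y) := by
      intro t t' h
      rcases lt_trichotomy t t' with h1 | h1 | h1
      · exact absurd h (hcon t t' h1)
      · exact h1
      · exact absurd h.symm (hcon t' t h1)
    exact Set.infinite_range_of_injective hinj hfin
  -- step 2
  have hfin2 : (Set.range fun m : ℕ => (a ^ m) Y).Finite := by
    have hsub : (Set.range fun m : ℕ => (a ^ m) Y) ⊆ (fun m : ℕ => (a ^ m) Y) '' (Set.Iio (2 ^ t')) := by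
      rintro _ ⟨m, rfl⟩
      induction m using Nat.strong_induction_on with
      | _ m ih =>
        by_cases hm : m < 2 ^ t'
        · exact ⟨m, hm, rfl⟩
        · have hlt : 2 ^ t < 2 ^ t' := Nat.pow_lt_pow_right (by norm_num) htt
          have h1 : (a ^ m) Y = (a ^ (m - 2 ^ t' + 2 ^ t)) Y := by
            have : m = (m - 2 ^ t') + 2 ^ t' := by omega
            conv_lhs => rw [this]
            rw [hpow, hpow, heq]
          have h2 := ih (m - 2 ^ t' + 2 ^ t) (by omega)
          simp only [← h1] at h2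
          exact h2
    exact (Set.Finite.image _ (Set.finite_Iio _)).subset hsub
  -- step 3
  have hΦpow : ∀ m : ℕ, Φ ((a ^ m) Y) = (a ^ (2 * m + 1)) Y := by
    intro m
    induction m with
    | zero => simpa using hS
    | succ m ih =>
      have e1 : (a ^ (m + 1)) Y = a ((a ^ m) Y) := by rw [pow_succ']; rfl
      have e2 : (a ^ (2 * (m + 1) + 1)) Y = a (a ((a ^ (2 * m + 1)) Y)) := by
        have : 2 * (m + 1) + 1 = (2 * m + 1) + 1 + 1 := by ring
        rw [this, pow_succ', pow_succ']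
        rfl
      rw [e1, hc, ih, e2]
  have hΦit : ∀ r : ℕ, (Φ ^ r) Y = (a ^ (2 ^ r - 1)) Y := by
    intro r
    induction r with
    | zero => simp
    | succ r ih =>
      have e1 : (Φ ^ (r + 1)) Y = Φ ((Φ ^ r) Y) := by rw [pow_succ']; rfl
      rw [e1, ih, hΦpow]
      congr 2
      have : 1 ≤ 2 ^ r := Nat.one_le_two_pow
      rw [pow_succ]
      omega
  -- step 4
  obtain ⟨r, r', hrr, heq2⟩ : ∃ r r' : ℕ, r < r' ∧ (Φ ^ r) Y = (Φ ^ r') Y := by
    by_contra hcon
    push Not at hcon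
    have hinj : Function.Injective (fun r : ℕ => (Φ ^ r) Y) := by
      intro t t' h
      rcases lt_trichotomy t t' with h1 | h1 | h1
      · exact absurd h (hcon t t' h1)
      · exact h1
      · exact absurd h.symm (hcon t' t h1)
    have hsub : (Set.range fun r : ℕ => (Φ ^ r) Y) ⊆ (Set.range fun m : ℕ => (a ^ m) Y) := by
      rintro _ ⟨r, rfl⟩
      exact ⟨2 ^ r - 1, (hΦit r).symm⟩
    exact Set.infinite_range_of_injective hinj (hfin2.subset hsub)
  have hΦinj : ∀ r : ℕ, Function.Injective ((Φ ^ r : AddMonoid.End G)) := by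
    intro r
    induction r with
    | zero => intro x y h; simpa using h
    | succ r ih =>
      intro x y h
      have e1 : ∀ z, (Φ ^ (r + 1)) z = Φ ((Φ ^ r) z) := by intro z; rw [pow_succ']; rfl
      rw [e1, e1] at h
      exact ih (hΦ h)
  obtain ⟨s, hs⟩ : ∃ s, r' = r + (s + 1) := ⟨r' - r - 1, by omega⟩
  have hper : (Φ ^ (s + 1)) Y = Y := by
    apply hΦinj r
    have hpowΦ : ∀ m n : ℕ, (Φ ^ (m + n)) Y = (Φ ^ m) ((Φ ^ n) Y) := by
      intro m n
      rw [pow_add]
      rfl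
    have : (Φ ^ r) ((Φ ^ (s + 1)) Y) = (Φ ^ r') Y := by rw [hs]; exact (hpowΦ r (s + 1)).symm
    rw [this, ← heq2]
  rw [hΦit] at hper
  obtain ⟨k, hk⟩ : ∃ k, 2 ^ (s + 1) = k + 2 := ⟨2 ^ (s + 1) - 2, by
    have : 1 ≤ 2 ^ s := Nat.one_le_two_pow
    rw [pow_succ]; omega⟩
  have hk1 : 2 ^ (s + 1) - 1 = k + 1 := by omega
  rw [hk1] at hper
  have hW : Φ ((a ^ k) Y) = (a ^ k) Y := by
    rw [hΦpow]
    have : 2 * k + 1 = k + (k + 1) := by ring
    rw [this, hpow, hper]
  have hW0 := hΦ1 _ hW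
  apply hY
  rw [← hper, pow_succ']
  change a ((a ^ k) Y) = 0
  rw [hW0, map_zero]

end Pool.Agent.helper64.MFJ
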