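import Mathlib
import Pool.Agent.helper64.MF.Ult
import Pool.Agent.helper64.MF.JFin2

set_option autoImplicit false

/-!
# (J): the number of small elements is bounded
-/

namespace Pool.Agent.helper64.MFJ2

open Filter
open Pool.Agent.helper64.MFJ (ultra_exists ultra_pigeon Cst mem_Cst Q mapSeq act cl act_cl cl_surj cl_add cl_eq_zero cl_eq act_small act_inj
  cl_ne_zero ultra_clique finite_of_pairs alg)

section

variable {δ : ℝ} {C : ℕ} (S : ℕ → Str δ C) (F : Ultrafilter ℕ)

/-- the sequence of groups -/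
abbrev US (S : ℕ → Str δ C) : ℕ → Type := fun j => (S j).U

end

section

variable {δ : ℝ} {C : ℕ} {S : ℕ → Str δ C} (F : Ultrafilter ℕ)

theorem two_Q (q : Q (US S) F) : q + q = 0 := by
  obtain ⟨f, rfl⟩ := cl_surj F q
  rw [← cl_add]
  have : f + f = 0 := by
    ext i j
    exact (S j).two (f i j)
  rw [this]
  rfl

theorem two_End (T : AddMonoid.End (Q (US S) F)) : T + T = 0 := by
  apply AddMonoidHom.ext
  intro q
  exact two_Q F (T q)

theorem eq_of_add_eq_zero {G : Type*} [AddCommGroup G] (h2 : ∀ x : G, x + x = 0) {a b : G} (h : a + b = 0) :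
    a = b := by
  have := h2 b
  calc a = a + (b + b) := by rw [this, add_zero]
    _ = (a + b) + b := by rw [add_assoc]
    _ = b := by rw [h, zero_add]

theorem act_eq_of_small (T T' : ∀ j, AddMonoid.End (US S j)) (K : ℕ)
    (h : ∀ᶠ j in (F : Filter ℕ), rg (T j + T' j) ≤ K) : act F T = act F T' := by
  have h1 : act F (T + T') = 0 := act_small F (T + T') K h
  rw [map_add] at h1
  exact eq_of_add_eq_zero (two_End F) h1

/-- the operator `L v` -/
def ell (v : ∀ j, (S j).U) : AddMonoid.End (Q (US S) F) := act F (fun j => (S j).L (v j))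

theorem ell_add (v w : ∀ j, (S j).U) : ell F (fun j => v j + w j) = ell F v + ell F w := by
  have h := act_eq_of_small F (fun j => (S j).L (v j + w j)) ((fun j => (S j).L (v j)) + fun j => (S j).L (w j)) C
    (Filter.Eventually.of_forall fun j => by
      have := (S j).rL (v j) (w j)
      simpa [add_assoc] using this)
  unfold ell
  rw [h, map_add]

theorem ell_sq (v : ∀ j, (S j).U) (hv : ∀ᶠ j in (F : Filter ℕ), v j ∈ (S j).W) :
    ell F (fun j => (S j).φ (v j)) = ell F v * ell F v := by
  have h := act_eq_of_small F (fun j => (S j).L ((S j).φ (v j))) ((fun j => (S j).L (v j)) * fun j => (S j).L (v j)) C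
    (by filter_upwards [hv] with j hj using (S j).rS (v j) hj)
  unfold ell
  rw [h, map_mul]

/-- the operator `φ` -/
def Phi (S : ℕ → Str δ C) : AddMonoid.End (Q (US S) F) := act F (fun j => (S j).φ)

theorem Phi_ell (v : ∀ j, (S j).U) (hv : ∀ᶠ j in (F : Filter ℕ), v j ∈ (S j).W) :
    Phi F S * ell F v = ell F v * ell F v * Phi F S := by
  have h := act_eq_of_small F ((fun j => (S j).φ) * fun j => (S j).L (v j))
    ((fun j => (S j).L ((S j).φ (v j))) * fun j => (S j).φ) C
    (by filter_upwards [hv] with j hj using (S j).rφ (v j) hj)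
  rw [map_mul, map_mul] at h
  rw [← ell_sq F v hv]
  exact h

theorem Phi_inj : Function.Injective (Phi F S) := by
  intro p q h
  have h1 : Phi F S (p - q) = 0 := by rw [map_sub, h, sub_self]
  have h2 := act_inj F (fun j => (S j).φ) C (Filter.Eventually.of_forall fun j => (S j).kφ) (p - q) h1
  exact sub_eq_zero.1 h2

theorem Phi_fix (q : Q (US S) F) (h : Phi F S q = q) : q = 0 := by
  apply act_inj F (fun j => (S j).φ - 1) C (Filter.Eventually.of_forall fun j => ?_) q
  · have h1 : act F ((fun j => (S j).φ) - 1) = Phi F S - 1 := by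
      rw [map_sub, map_one]; rfl
    have h2 : act F (fun j => (S j).φ - 1) q = (Phi F S - 1) q := by
      rw [← h1]; rfl
    rw [h2]
    change Phi F S q - q = 0
    rw [h, sub_self]
  · have h3 : ({x | ((S j).φ - 1) x = 0} : Set (US S j)) = {x | (S j).φ x = x} := by
      ext x
      simp only [Set.mem_ofPred_eq]
      constructor
      · intro hx
        have : (S j).φ x - x = 0 := hx
        exact sub_eq_zero.1 this
      · intro hx
        change (S j).φ x - x = 0
        rw [hx, sub_self]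
    rw [h3]
    exact (S j).kφ1

/-- the finite orbit claim, first half: typical `z` -/
theorem orbit3 (hδ : 0 < δ) (b : ℕ) (y : ℕ → ∀ j, (S j).U)
    (hy : ∀ᶠ i in (F : Filter ℕ), ∀ᶠ j in (F : Filter ℕ), y i j ∈ (S j).Sb b) :
    ((cl F) '' {g : ℕ → ∀ j, US S j | ∃ z : ∀ j, (S j).U, (∀ᶠ j in (F : Filter ℕ), z j ∈ (S j).T3) ∧
      g = fun i j => (S j).A3 (z j) (y i j)}).Finite := by
  classical
  have hc : (0 : ℝ) < (δ / 2) ^ 2 / 2 := by positivity
  obtain ⟨N, hN⟩ := exists_nat_ge ((C * (C * b * b) : ℕ) / ((δ / 2) ^ 2 / 2) : ℝ)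
  let V : ℕ → ℕ → ∀ j, Set (US S j) := fun i i' j =>
    if y i j ∈ (S j).Sb b ∧ y i' j ∈ (S j).Sb b then (S j).V ((δ / 2) ^ 2 / 2) (y i j) (y i' j) else ∅
  apply finite_of_pairs F N V (fun i i' j => Set.toFinite _)
  · intro i i' j
    by_cases h : y i j ∈ (S j).Sb b ∧ y i' j ∈ (S j).Sb b
    · have h1 := (S j).V_card ((δ / 2) ^ 2 / 2) hc b h.1 h.2
      have h2 : V i i' j = (S j).V ((δ / 2) ^ 2 / 2) (y i j) (y i' j) := if_pos h
      rw [h2]
      exact_mod_cast le_trans h1 hN
    · have h2 : V i i' j = ∅ := if_neg h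
      rw [h2]
      simp
  · rintro g ⟨z, hz, rfl⟩
    -- two of many translates
    have key : ∀ᶠ i in (F : Filter ℕ), ∀ᶠ i' in (F : Filter ℕ), ∀ᶠ j in (F : Filter ℕ),
        (δ / 2) ^ 2 / 2 * (Fintype.card (S j).U : ℝ) ≤ (((Finset.univ : Finset (S j).U).filter
          (fun x => x + y i j ∈ (S j).P (z j) ∧ x + y i' j ∈ (S j).P (z j))).card : ℝ) := by
      by_contra hcon
      rw [← Ultrafilter.eventually_not] at hcon
      have hcon2 : ∀ᶠ i in (F : Filter ℕ), ∀ᶠ i' in (F : Filter ℕ), ∀ᶠ j in (F : Filter ℕ),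
          ¬ ((δ / 2) ^ 2 / 2 * (Fintype.card (S j).U : ℝ) ≤ (((Finset.univ : Finset (S j).U).filter
          (fun x => x + y i j ∈ (S j).P (z j) ∧ x + y i' j ∈ (S j).P (z j))).card : ℝ)) := by
        filter_upwards [hcon] with i hi
        rw [← Ultrafilter.eventually_not] at hi
        filter_upwards [hi] with i' hi'
        rwa [← Ultrafilter.eventually_not] at hi'
      obtain ⟨f, hf⟩ := ultra_clique F _ hcon2
      obtain ⟨K, hK⟩ := exists_nat_ge (2 / (δ / 2) ^ 2 : ℝ)
      have hK' : 2 ≤ K * (δ / 2) ^ 2 := by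
        rwa [div_le_iff₀ (by positivity)] at hK
      have hall : ∀ᶠ j in (F : Filter ℕ), ∀ k l : Fin K, k < l →
          ¬ ((δ / 2) ^ 2 / 2 * (Fintype.card (S j).U : ℝ) ≤ (((Finset.univ : Finset (S j).U).filter
          (fun x => x + y (f k) j ∈ (S j).P (z j) ∧ x + y (f l) j ∈ (S j).P (z j))).card : ℝ)) := by
        refine Filter.eventually_all.2 fun k => Filter.eventually_all.2 fun l => ?_
        by_cases hkl : k < l
        · filter_upwards [hf k l hkl] with j hj _ using hj
        · exact Filter.Eventually.of_forall fun j h => absurd h hkl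
      obtain ⟨j, hj1, hj2⟩ := (hall.and hz).exists
      have hne : Nonempty (S j).U := ⟨0⟩
      obtain ⟨k, l, hkl, hcard⟩ := two_of_many (U := (S j).U) (δ / 2) K hK' (by positivity)
        (fun k => (Finset.univ : Finset (S j).U).filter (fun x => x + y (f k) j ∈ (S j).P (z j))) (by
          intro k
          refine le_trans hj2 ?_
          have : ((S j).P (z j)).card ≤ ((Finset.univ : Finset (S j).U).filter
              (fun x => x + y (f k) j ∈ (S j).P (z j))).card := by
            refine Finset.card_le_card_of_injOn (fun x => x + y (f k) j) ?_ ?_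
            · intro x hx
              simp only [Finset.coe_filter, Finset.mem_univ, true_and, Set.mem_ofPred_eq]
              rw [add_assoc, (S j).two, add_zero]
              exact hx
            · intro x _ x' _ h
              exact add_right_cancel h
          exact_mod_cast this)
      refine hj1 k l hkl (le_trans hcard ?_)
      have hsub : (Finset.univ : Finset (S j).U).filter (fun x => x + y (f k) j ∈ (S j).P (z j)) ∩
          (Finset.univ : Finset (S j).U).filter (fun x => x + y (f l) j ∈ (S j).P (z j)) ⊆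
          (Finset.univ : Finset (S j).U).filter
          (fun x => x + y (f k) j ∈ (S j).P (z j) ∧ x + y (f l) j ∈ (S j).P (z j)) := by
        intro x hx
        simpa using hx
      exact_mod_cast Finset.card_le_card hsub
    filter_upwards [key, hy] with i hi hyi
    filter_upwards [hi, hy] with i' hi' hyi'
    filter_upwards [hi', hyi, hyi'] with j h1 h2 h3
    have h4 : V i i' j = (S j).V ((δ / 2) ^ 2 / 2) (y i j) (y i' j) := if_pos ⟨h2, h3⟩
    rw [h4]
    exact (S j).mem_V _ _ _ _ h1

/-- the finite orbit claim -/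
theorem orbit (hδ : 0 < δ) (b : ℕ) (y : ℕ → ∀ j, (S j).U)
    (hy : ∀ᶠ i in (F : Filter ℕ), ∀ᶠ j in (F : Filter ℕ), y i j ∈ (S j).Sb b) :
    (Set.range fun v : ∀ j, (S j).U => ell F v (cl F y)).Finite := by
  classical
  set T := (cl F) '' {g : ℕ → ∀ j, US S j | ∃ z : ∀ j, (S j).U, (∀ᶠ j in (F : Filter ℕ), z j ∈ (S j).T3) ∧
      g = fun i j => (S j).A3 (z j) (y i j)} with hT
  have hTf : T.Finite := orbit3 F hδ b y hy
  by_contra hinf
  have hinf' : (Set.range fun v : ∀ j, (S j).U => ell F v (cl F y)).Infinite := hinf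
  have hTT : (Set.image2 (fun p q => p + q) T T).Finite := Set.Finite.image2 _ hTf hTf
  obtain ⟨f, hf1, hf2⟩ := exists_seq_of_forall_finset_exists
    (fun q : Q (US S) F => q ∈ (Set.range fun v : ∀ j, (S j).U => ell F v (cl F y)))
    (fun p q => p + q ∉ Set.image2 (fun p q => p + q) T T) (by
      intro s _
      have hfin : (⋃ p ∈ s, (fun t => p + t) '' (Set.image2 (fun p q => p + q) T T)).Finite :=
        Set.Finite.biUnion s.finite_toSet fun p _ => hTT.image _
      obtain ⟨q, hq1, hq2⟩ := (hinf'.sdiff hfin).nonempty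
      refine ⟨q, hq1, ?_⟩
      intro p hp hpq
      apply hq2
      simp only [Set.mem_iUnion]
      refine ⟨p, hp, p + q, hpq, ?_⟩
      simp only
      rw [← add_assoc, two_Q, zero_add])
  choose v hv using hf1
  obtain ⟨K, hK⟩ := exists_nat_ge (2 / (δ / 2) ^ 2 : ℝ)
  have hK' : 2 ≤ K * (δ / 2) ^ 2 := by
    rwa [div_le_iff₀ (by positivity)] at hK
  have h1 : ∀ᶠ j in (F : Filter ℕ), ∃ kl : Fin K × Fin K, kl.1 < kl.2 ∧ ∃ x : (S j).U,
      x + v kl.1 j ∈ (S j).T3 ∧ x + v kl.2 j ∈ (S j).T3 := by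
    refine Filter.Eventually.of_forall fun j => ?_
    have hne : Nonempty (S j).U := ⟨0⟩
    obtain ⟨k, l, hkl, hcard⟩ := two_of_many (U := (S j).U) (δ / 2) K hK' (by positivity)
        (fun k => (Finset.univ : Finset (S j).U).filter (fun x => x + v k j ∈ (S j).T3)) (by
          intro k
          refine le_trans ((S j).T3_card hδ.le) ?_
          have : ((Finset.univ : Finset (S j).U).filter (· ∈ (S j).T3)).card ≤
              ((Finset.univ : Finset (S j).U).filter (fun x => x + v k j ∈ (S j).T3)).card := by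
            refine Finset.card_le_card_of_injOn (fun x => x + v k j) ?_ ?_
            · intro x hx
              simp only [Finset.coe_filter, Finset.mem_univ, true_and, Set.mem_ofPred_eq] at hx ⊢
              rw [add_assoc, (S j).two, add_zero]
              exact hx
            · intro x _ x' _ h
              exact add_right_cancel h
          exact_mod_cast this)
    have hn : (0 : ℝ) < (Fintype.card (S j).U : ℝ) := by exact_mod_cast Fintype.card_pos
    have hpos : (0 : ℝ) < (δ / 2) ^ 2 / 2 * (Fintype.card (S j).U : ℝ) := by positivity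
    have hcard' := lt_of_lt_of_le hpos hcard
    have hne2 : ((Finset.univ : Finset (S j).U).filter (fun x => x + v k j ∈ (S j).T3) ∩
      (Finset.univ : Finset (S j).U).filter (fun x => x + v l j ∈ (S j).T3)).Nonempty := by
      rw [← Finset.card_pos]
      exact_mod_cast hcard'
    obtain ⟨x, hx⟩ := hne2
    simp only [Finset.mem_inter, Finset.mem_filter, Finset.mem_univ, true_and] at hx
    exact ⟨(k, l), hkl, x, hx.1, hx.2⟩
  obtain ⟨⟨k, l⟩, hkl⟩ := ultra_exists F _ h1
  have hkl' : k < l := by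
    obtain ⟨j, hj⟩ := hkl.exists
    exact hj.1
  have h2 : ∀ j, ∃ x : (S j).U, (k < l ∧ ∃ x : (S j).U, x + v k j ∈ (S j).T3 ∧ x + v l j ∈ (S j).T3) →
      (x + v k j ∈ (S j).T3 ∧ x + v l j ∈ (S j).T3) := by
    intro j
    by_cases h : k < l ∧ ∃ x : (S j).U, x + v k j ∈ (S j).T3 ∧ x + v l j ∈ (S j).T3
    · obtain ⟨x, hx⟩ := h.2
      exact ⟨x, fun _ => hx⟩
    · exact ⟨0, fun h' => absurd h' h⟩
  choose x hx using h2
  have hz1 : ∀ᶠ j in (F : Filter ℕ), x j + v k j ∈ (S j).T3 := by
    filter_upwards [hkl] with j hj using (hx j hj).1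
  have hz2 : ∀ᶠ j in (F : Filter ℕ), x j + v l j ∈ (S j).T3 := by
    filter_upwards [hkl] with j hj using (hx j hj).2
  have h3 : act F (fun j => (S j).L (v k j + v l j)) =
      act F ((fun j => (S j).A3 (x j + v k j)) + fun j => (S j).A3 (x j + v l j)) := by
    apply act_eq_of_small F _ _ C
    filter_upwards [hz1, hz2] with j hj1 hj2
    obtain ⟨p, hp, hpz⟩ := (S j).T3_line hδ hj1
    obtain ⟨p', hp', hpz'⟩ := (S j).T3_line hδ hj2
    have h4 := (S j).r3 p hp p' hp'
    rw [hpz, hpz'] at h4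
    have h5 : x j + v k j + (x j + v l j) = v k j + v l j := by
      have := (S j).two (x j)
      calc x j + v k j + (x j + v l j) = (x j + x j) + (v k j + v l j) := by abel
        _ = _ := by rw [this, zero_add]
    rw [h5] at h4
    have h6 : (S j).L (v k j + v l j) + ((fun j => (S j).A3 (x j + v k j)) + fun j => (S j).A3 (x j + v l j)) j
        = (S j).A3 (x j + v k j) + (S j).A3 (x j + v l j) + (S j).L (v k j + v l j) := by
      simp only [Pi.add_apply]
      abel
    rw [h6]
    exact h4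
  apply hf2 k l hkl'
  rw [← hv k, ← hv l]
  simp only
  have h7 : ell F (v k) (cl F y) + ell F (v l) (cl F y)
      = act F (fun j => (S j).L (v k j + v l j)) (cl F y) := by
    have := ell_add F (v k) (v l)
    unfold ell at this
    rw [this]
    rfl
  rw [h7, h3, map_add]
  refine ⟨_, ?_, _, ?_, rfl⟩
  · exact ⟨_, ⟨fun j => x j + v k j, hz1, rfl⟩, rfl⟩
  · exact ⟨_, ⟨fun j => x j + v l j, hz2, rfl⟩, rfl⟩

end

/-- the subgroup of the elements whose first iterates stay in `W` -/
def Wt {δ : ℝ} {C : ℕ} (S : Str δ C) : ℕ → AddSubgroup S.U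
  | 0 => S.W
  | (m + 1) => S.W ⊓ (Wt S m).comap S.φ

theorem Wt_index {δ : ℝ} {C : ℕ} (S : Str δ C) (m : ℕ) : (Wt S m).index ≤ C ^ (m + 1) := by
  induction m with
  | zero => simpa [Wt] using S.hW
  | succ m ih =>
    have h1 : (Wt S (m + 1)).index ≤ S.W.index * ((Wt S m).comap S.φ).index := by
      exact AddSubgroup.index_inf_le
    have h2 : ((Wt S m).comap S.φ).index ≤ (Wt S m).index := by
      have e1 : ((Wt S m).comap S.φ).index = (Wt S m).relIndex (AddMonoidHom.range (S.φ : S.U →+ S.U)) :=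
        AddSubgroup.index_comap (Wt S m) (S.φ : S.U →+ S.U)
      rw [e1]
      exact Nat.le_of_dvd (Nat.pos_of_ne_zero AddSubgroup.FiniteIndex.index_ne_zero)
        (AddSubgroup.relIndex_dvd_index_of_normal _ _)
    calc _ ≤ _ := h1
      _ ≤ C * C ^ (m + 1) := Nat.mul_le_mul S.hW (h2.trans ih)
      _ = _ := by ring

theorem Wt_mem {δ : ℝ} {C : ℕ} (S : Str δ C) (m t : ℕ) (ht : t ≤ m) (v : S.U) (hv : v ∈ Wt S m) : (S.φ ^ t) v ∈ S.W := by
  induction m generalizing t v with
  | zero =>
    have : t = 0 := by omega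
    subst this
    simpa [Wt] using hv
  | succ m ih =>
    rcases Nat.eq_zero_or_pos t with h | h
    · subst h
      have : v ∈ S.W := (AddSubgroup.mem_inf.1 hv).1
      simpa using this
    · obtain ⟨t', rfl⟩ : ∃ t', t = t' + 1 := ⟨t - 1, by omega⟩
      have h2 : S.φ v ∈ Wt S m := (AddSubgroup.mem_inf.1 hv).2
      have h3 := ih t' (by omega) (S.φ v) h2
      rw [pow_succ]
      exact h3

/-- **(J)**: the number of small elements is bounded. -/
theorem J_of (hB : StmtB) (δ : ℝ) (hδ : 0 < δ) (C b : ℕ) : ∃ q : ℕ, ∀ S : Str δ C, (S.Sb b).card ≤ q := by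
  classical
  by_contra hcon
  push Not at hcon
  obtain ⟨K, hK⟩ := hB δ C b hδ
  have hK' : ∀ m : ℕ, ∃ N : ℕ, ∀ (S : Str δ C) (A : Finset S.U)
  (W' : AddSubgroup S.U), W'.index ≤ C ^ (m + 1) → A ⊆ S.Sb b → N ≤ A.card →
  ∃ (I : Finset S.U) (a : AddMonoid.End S.U) (v c : S.U), I ⊆ A ∧ m ≤ I.card ∧
    (∀ y ∈ I, S.φ y = a y + c) ∧ rg (a + S.L v) ≤ K ∧ v ∈ W' := fun m => hK m (C ^ (m + 1))
  choose N hN using hK'
  choose S0 hS0 using hcon
  have h1 : ∀ m : ℕ, ∃ (I : Finset (S0 (N m)).U) (a : AddMonoid.End (S0 (N m)).U) (v c : (S0 (N m)).U),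
      I ⊆ (S0 (N m)).Sb b ∧ m ≤ I.card ∧
    (∀ y ∈ I, (S0 (N m)).φ y = a y + c) ∧ rg (a + (S0 (N m)).L v) ≤ K ∧ v ∈ Wt (S0 (N m)) m :=
    fun m => hN m (S0 (N m)) ((S0 (N m)).Sb b) _ (Wt_index _ m) (Finset.Subset.refl _) (hS0 (N m)).le
  choose I a v c hI hIc hφ hK2 hvW using h1
  let S : ℕ → Str δ C := fun m => S0 (N m)
  let F : Ultrafilter ℕ := Filter.hyperfilter ℕ
  have hF : (F : Filter ℕ) ≤ Filter.cofinite := Filter.hyperfilter_le_cofinite
  have hFge : ∀ i : ℕ, ∀ᶠ j in (F : Filter ℕ), i < j := by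
    intro i
    apply hF
    rw [Filter.mem_cofinite]
    exact (Set.finite_Iic i).subset fun j hj => by simpa using hj
  -- the sequence
  let y : ℕ → ∀ j, (S j).U := fun i j =>
    if h : i < (I j).card then ((I j).equivFin.symm ⟨i, h⟩ : (S j).U) else 0
  have hyI : ∀ i, ∀ᶠ j in (F : Filter ℕ), y i j ∈ I j := by
    intro i
    filter_upwards [hFge i] with j hj
    have h : i < (I j).card := lt_of_lt_of_le hj (hIc j)
    have : y i j = ((I j).equivFin.symm ⟨i, h⟩ : (S j).U) := dif_pos h
    rw [this]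
    exact Finset.coe_mem _
  have hyne : ∀ i i', i ≠ i' → ∀ᶠ j in (F : Filter ℕ), y i j ≠ y i' j := by
    intro i i' hne
    filter_upwards [hFge i, hFge i'] with j hj hj'
    have h : i < (I j).card := lt_of_lt_of_le hj (hIc j)
    have h' : i' < (I j).card := lt_of_lt_of_le hj' (hIc j)
    have e1 : y i j = ((I j).equivFin.symm ⟨i, h⟩ : (S j).U) := dif_pos h
    have e2 : y i' j = ((I j).equivFin.symm ⟨i', h'⟩ : (S j).U) := dif_pos h'
    rw [e1, e2]
    intro heq
    have h3 := (I j).equivFin.symm.injective (Subtype.ext heq)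
    exact hne (by simpa using h3)
  have hyS : ∀ᶠ i in (F : Filter ℕ), ∀ᶠ j in (F : Filter ℕ), y i j ∈ (S j).Sb b :=
    Filter.Eventually.of_forall fun i => by
      filter_upwards [hyI i] with j hj using hI j hj
  have horb := orbit F hδ b y hyS
  have hY : cl F y ≠ 0 := cl_ne_zero F hF y hyne
  have ha : act F (U := US S) a = ell F (S := S) v :=
    act_eq_of_small F (S := S) a (fun j => (S j).L (v j)) K (Filter.Eventually.of_forall fun j => hK2 j)
  have hSq : Phi F S (cl F y) = ell F (S := S) v (cl F y) := by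
    rw [← ha]
    change cl F _ = cl F _
    rw [cl_eq, mem_Cst]
    refine ⟨c, Filter.Eventually.of_forall fun i => ?_⟩
    filter_upwards [hyI i] with j hj
    have := hφ j _ hj
    change (S j).φ (y i j) - a j (y i j) = c j
    change (S j).φ (y i j) = a j (y i j) + c j at this
    rw [this]
    abel
  have hvt : ∀ t : ℕ, ∀ᶠ j in (F : Filter ℕ), ((S j).φ ^ t) (v j) ∈ (S j).W := by
    intro t
    filter_upwards [hFge t] with j hj using Wt_mem _ j t hj.le _ (hvW j)
  refine alg (ell F (S := S) v) (Phi F S) (cl F y) hY (Phi_inj F) (Phi_fix F) ?_ hSq ?_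
  · intro q
    have := Phi_ell F (S := S) v (by simpa using hvt 0)
    calc Phi F S (ell F v q) = (Phi F S * ell F v) q := rfl
      _ = (ell F v * ell F v * Phi F S) q := by rw [this]
      _ = _ := rfl
  · have hpow : ∀ t : ℕ, (ell F (S := S) v) ^ (2 ^ t) = ell F (S := S) (fun j => ((S j).φ ^ t) (v j)) := by
      intro t
      induction t with
      | zero => simp
      | succ t ih =>
        have h3 := ell_sq F (S := S) (fun j => ((S j).φ ^ t) (v j)) (hvt t)
        have h4 : (fun j => (S j).φ (((S j).φ ^ t) (v j))) = fun j => ((S j).φ ^ (t + 1)) (v j) := by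
          funext j
          rw [pow_succ']
          rfl
        rw [h4] at h3
        rw [h3, pow_succ, pow_mul, ih, sq]
    refine horb.subset ?_
    rintro _ ⟨t, rfl⟩
    exact ⟨fun j => ((S j).φ ^ t) (v j), by simp only [hpow t]⟩

end Pool.Agent.helper64.MFJ2
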