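import Mathlib
import Pool.Agent.helper64.MF.JMain2
import Pool.Agent.helper64.MF.JB

set_option autoImplicit false

/-!
# (J): final form
-/

namespace Pool.Agent.helper64.MFJ2

/-- **(J)**: the number of elements `u` with `|range (L u)| ≤ b` is bounded. -/
theorem J (δ : ℝ) (hδ : 0 < δ) (C b : ℕ) : ∃ q : ℕ, ∀ S : Str δ C, (S.Sb b).card ≤ q :=
  J_of stmtB δ hδ C b

end Pool.Agent.helper64.MFJ2
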