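import Mathlib

set_option autoImplicit false

/-!
# The interface for the bound (J) of MP_141f81, Section 9

One finite group `U` of exponent two; small maps are those whose range has at most `C` elements.
-/

namespace Pool.Agent.helper64.MFJ

/-- the number of elements of the range -/
noncomputable def rg {U : Type} [AddCommGroup U] (f : AddMonoid.End U) : ℕ := (Set.range f).ncard

/-- the input of (J) (items (1) - (5)) -/
structure Str (δ : ℝ) (C : ℕ) where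
  U : Type
  [ag : AddCommGroup U]
  [ft : Fintype U]
  [de : DecidableEq U]
  two : ∀ u : U, u + u = 0
  B : Finset (U × U)
  hB : δ * (Fintype.card U : ℝ) ^ 2 ≤ (B.card : ℝ)
  A1 : U → AddMonoid.End U
  A2 : U → AddMonoid.End U
  A3 : U → AddMonoid.End U
  L : U → AddMonoid.End U
  φ : AddMonoid.End U
  c1 : U → U
  c2 : U → U
  c3 : U → U
  c0 : U
  id1 : ∀ p ∈ B, φ p.1 + c0 = (A2 p.2 p.1 + c2 p.2) + (A1 p.1 (p.1 + p.2) + c1 p.1)
  id2 : ∀ p ∈ B, A3 (p.1 + p.2) p.1 + c3 (p.1 + p.2) = A1 p.1 (p.1 + p.2) + c1 p.1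
  r0 : ∀ p ∈ B, rg (A1 p.1 + A2 p.2 + A3 (p.1 + p.2)) ≤ C
  r1 : ∀ p ∈ B, ∀ p' ∈ B, rg (A1 p.1 + A1 p'.1 + L (p.1 + p'.1)) ≤ C
  r2 : ∀ p ∈ B, ∀ p' ∈ B, rg (A2 p.2 + A2 p'.2 + L (p.2 + p'.2)) ≤ C
  r3 : ∀ p ∈ B, ∀ p' ∈ B, rg (A3 (p.1 + p.2) + A3 (p'.1 + p'.2) + L ((p.1 + p.2) + (p'.1 + p'.2))) ≤ C
  rL : ∀ u v : U, rg (L (u + v) + L u + L v) ≤ C
  rS : ∀ u : U, rg (L (φ u) + L u * L u) ≤ C
  rφ : ∀ u : U, rg (φ * L u + L (φ u) * φ) ≤ C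
  kφ : ({x | φ x = 0} : Set U).ncard ≤ C
  kφ1 : ({x | φ x = x} : Set U).ncard ≤ C

attribute [instance] Str.ag Str.ft Str.de

/-- the small elements -/
noncomputable def Str.Sb {δ : ℝ} {C : ℕ} (S : Str δ C) (b : ℕ) : Finset S.U :=
  (Finset.univ : Finset S.U).filter (fun y => rg (S.L y) ≤ b)

/-- the finite step (b): among sufficiently many small elements some `m` of them satisfy `φ y = a y + const` with
`a ~ L v` -/
def StmtB : Prop := ∀ (δ : ℝ) (C b : ℕ), 0 < δ → ∃ K : ℕ, ∀ m : ℕ, ∃ N : ℕ, ∀ (S : Str δ C) (A : Finset S.U),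
  A ⊆ S.Sb b → N ≤ A.card → ∃ (I : Finset S.U) (a : AddMonoid.End S.U) (v c : S.U), I ⊆ A ∧ m ≤ I.card ∧
    (∀ y ∈ I, S.φ y = a y + c) ∧ rg (a + S.L v) ≤ K

end Pool.Agent.helper64.MFJ
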