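import Mathlib
import Pool.Agent.helper31.MF.EndX
import Pool.Agent.helper64.MF.J

set_option autoImplicit false

/-!
# The bound (J) for `EndX`
-/

namespace Pool.Agent.helper64.MFJ2

open Pool.Agent.MF Pool.Agent.MF.LemT

theorem rg_eq_nr {U : Type} [AddCommGroup U] (f : AddMonoid.End U) : rg f = nr f := by
  unfold rg nr
  rw [← Nat.card_coe_set_eq]
  rfl

/-- the structure of (J) inside `EndX` -/
noncomputable def strOf {δ : ℝ} {C : ℕ} (X : EndX δ C) : Str δ C where
  U := X.U
  ag := X.ag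
  ft := X.ft
  de := X.de
  two := X.two
  B := X.B
  hB := X.hB
  A1 := X.A1
  A2 := X.A2
  A3 := X.A3
  L := X.L
  φ := X.φ
  c1 := X.c1
  c2 := X.c2
  c3 := X.c3
  c0 := X.c0
  id1 := X.id1
  id2 := X.id2
  r0 := fun p hp => by rw [rg_eq_nr]; exact X.r0 p hp
  r1 := fun p hp p' hp' => by rw [rg_eq_nr]; exact X.r1 p hp p' hp'
  r2 := fun p hp p' hp' => by rw [rg_eq_nr]; exact X.r2 p hp p' hp'
  r3 := fun p hp p' hp' => by rw [rg_eq_nr]; exact X.r3 p hp p' hp'
  rL := fun u v => by rw [rg_eq_nr, add_assoc]; exact X.rL u v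
  W := X.W
  hW := X.hW
  rS := fun u hu => by rw [rg_eq_nr]; exact X.hS u hu
  rφ := fun u hu => by rw [rg_eq_nr]; exact X.hφ u hu
  kφ := by
    have h := X.kφ
    rw [← Nat.card_coe_set_eq]
    exact h
  kφ1 := by
    have h := X.kφ1
    rw [← Nat.card_coe_set_eq]
    refine le_trans (le_of_eq ?_) h
    apply Nat.card_congr
    refine Equiv.subtypeEquivRight ?_
    intro x
    constructor
    · intro (hx : X.φ x = x)
      show (X.φ + 1) x = 0
      show X.φ x + x = 0
      rw [hx, X.two]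
    · intro (hx : (X.φ + 1) x = 0)
      show X.φ x = x
      have h1 : X.φ x + x = 0 := hx
      calc X.φ x = X.φ x + (x + x) := by rw [X.two, add_zero]
        _ = (X.φ x + x) + x := by rw [add_assoc]
        _ = x := by rw [h1, zero_add]

/-- **(J) for `EndX`** : the number of small elements is bounded. -/
theorem endX_small (δ : ℝ) (hδ : 0 < δ) (C : ℕ) :
    ∃ q : ℕ → ℕ, ∀ X : EndX δ C, ∀ b : ℕ, ({u | nr (X.L u) ≤ b} : Set X.U).ncard ≤ q b := by
  choose q hq using fun b => J δ hδ C b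
  refine ⟨q, ?_⟩
  intro X b
  refine le_trans (le_of_eq ?_) (hq b (strOf X))
  rw [← Set.ncard_coe_finset]
  have h : ((strOf X).Sb b : Set (strOf X).U) = {u : (strOf X).U | nr ((strOf X).L u) ≤ b} := by
    ext u
    rw [Finset.mem_coe, Str.Sb, Finset.mem_filter]
    constructor
    · rintro ⟨-, h⟩
      rw [rg_eq_nr] at h
      exact h
    · intro h
      refine ⟨Finset.mem_univ _, ?_⟩
      rw [rg_eq_nr]
      exact h
  rw [h]
  rfl

end Pool.Agent.helper64.MFJ2
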