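import Mathlib
import Pool.Agent.helper78.MF.Dz

set_option autoImplicit false

/-!
# MP_141f81, Section 9: `StmtPre` with the big sections themselves
-/

namespace Pool.Agent.helper64.PreS

open Finset Helper34MF
open Pool.Agent.MF.LemT (nr kr Lab nr_add nr_pos nr_mul_left nr_mul_right)
open Pool.Agent.helper63.MF
open Pool.Agent.helper35.MF (Ball)
open Pool.Agent.helper20.MF (Op)
open Helper78MF.Dz (popular two_letters dz)

section

variable {U : Type} [AddCommGroup U] [Finite U]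

theorem lab_mono {K K' : ℕ} {Θ ζ g s : AddMonoid.End U} (h : Lab K Θ ζ g s) (hK : K ≤ K') : Lab K' Θ ζ g s where
  two := h.two
  kg := h.kg.trans hK
  ks := h.ks.trans hK
  gT := h.gT.trans hK
  sT := h.sT.trans hK
  zT := h.zT.trans hK
  zz := h.zz.trans hK

/-- the noise of a big section -/
noncomputable def noise (H : AddSubgroup (U × U)) : Finset U := (Set.toFinite (ind H)).toFinset

theorem noise_card {H : AddSubgroup (U × U)} {A : U →+ U} {C : ℕ} (h : Op H A C) : (noise H).card ≤ C := by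
  unfold noise
  rw [← Set.ncard_eq_toFinset_card]
  exact h.sec.le

theorem noise_mem (two : ∀ u : U, u + u = 0) {H : AddSubgroup (U × U)} {A : U →+ U} {C : ℕ} (h : Op H A C)
    {x y : U} (hxy : (x, y) ∈ H) : A x + y ∈ noise H := by
  unfold noise
  rw [Set.Finite.mem_toFinset]
  have h1 := h.sec.diff hxy
  have h2 : -y = y := neg_eq_of_add_eq_zero_left (two y)
  rw [sub_eq_add_neg, h2] at h1
  exact h1

/-- equal noises cancel in a difference -/
theorem noise_diff (two : ∀ u : U, u + u = 0) (A : AddMonoid.End U) {x y x' y' e : U} (h : A x + y = e)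
    (h' : A x' + y' = e) : A (x + x') = y + y' := by
  rw [map_add]
  have h1 : A x = e + y := by
    calc A x = A x + (y + y) := by rw [two, add_zero]
      _ = (A x + y) + y := by rw [add_assoc]
      _ = e + y := by rw [h]
  have h2 : A x' = e + y' := by
    calc A x' = A x' + (y' + y') := by rw [two, add_zero]
      _ = (A x' + y') + y' := by rw [add_assoc]
      _ = e + y' := by rw [h']
  rw [h1, h2]
  calc e + y + (e + y') = (e + e) + (y + y') := by abel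
    _ = y + y' := by rw [two, zero_add]

variable {C : ℕ} {L : U → AddMonoid.End U}

/-- the rule `Θ L u ~ L (Θ u)` for a difference -/
theorem rule1 (two : ∀ u : U, u + u = 0) (Θ : AddMonoid.End U) {x x' y y' : U} {a a' b b' : AddMonoid.End U}
    (h1 : nr (L (x + x') + (a + a')) ≤ C ^ 3) (h2 : nr (L (y + y') + (b + b')) ≤ C ^ 3)
    (hθ : Θ (x + x') = y + y') (r : nr (Θ * a + b) ≤ C) (r' : nr (Θ * a' + b') ≤ C) :
    nr (Θ * L (x + x') + L (Θ (x + x'))) ≤ C ^ 8 := by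
  rw [hθ]
  have e : Θ * L (x + x') + L (y + y') =
      Θ * (L (x + x') + (a + a')) + (Θ * a + b) + (Θ * a' + b') + (L (y + y') + (b + b')) := by
    have e3 : Θ * (L (x + x') + (a + a')) + (Θ * a + b) + (Θ * a' + b') + (L (y + y') + (b + b')) =
        Θ * L (x + x') + L (y + y') + (Θ * a + Θ * a) + (Θ * a' + Θ * a') + (b + b) + (b' + b') := by
      simp only [mul_add]
      abel
    rw [e3]
    simp only [Pool.Agent.MF.LemT.add_self two, add_zero]
  rw [e]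
  calc _ ≤ C ^ 3 * C * C * C ^ 3 := by
        refine (nr_add _ _).trans (Nat.mul_le_mul ?_ h2)
        refine (nr_add _ _).trans (Nat.mul_le_mul ?_ r')
        refine (nr_add _ _).trans (Nat.mul_le_mul ?_ r)
        exact (nr_mul_left _ _).trans h1
    _ = C ^ 8 := by ring

/-- the rule `g L u ~ L (g u) g` for a difference -/
theorem rule2 (two : ∀ u : U, u + u = 0) (g : AddMonoid.End U) {x x' y y' : U} {a a' b b' : AddMonoid.End U}
    (h1 : nr (L (x + x') + (a + a')) ≤ C ^ 3) (h2 : nr (L (y + y') + (b + b')) ≤ C ^ 3)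
    (hg : g (x + x') = y + y') (r : nr (g * a + b * g) ≤ C) (r' : nr (g * a' + b' * g) ≤ C) :
    nr (g * L (x + x') + L (g (x + x')) * g) ≤ C ^ 8 := by
  rw [hg]
  have e : g * L (x + x') + L (y + y') * g =
      g * (L (x + x') + (a + a')) + (g * a + b * g) + (g * a' + b' * g) + (L (y + y') + (b + b')) * g := by
    have e3 : g * (L (x + x') + (a + a')) + (g * a + b * g) + (g * a' + b' * g) + (L (y + y') + (b + b')) * g =
        g * L (x + x') + L (y + y') * g + (g * a + g * a) + (g * a' + g * a') + (b * g + b * g) +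
          (b' * g + b' * g) := by
      simp only [mul_add, add_mul]
      abel
    rw [e3]
    simp only [Pool.Agent.MF.LemT.add_self two, add_zero]
  rw [e]
  calc _ ≤ C ^ 3 * C * C * C ^ 3 := by
        refine (nr_add _ _).trans (Nat.mul_le_mul ?_ ((nr_mul_right _ _).trans h2))
        refine (nr_add _ _).trans (Nat.mul_le_mul ?_ r')
        refine (nr_add _ _).trans (Nat.mul_le_mul ?_ r)
        exact (nr_mul_left _ _).trans h1
    _ = C ^ 8 := by ring

/-- squares of two letters -/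
theorem rule_sq (two : ∀ u : U, u + u = 0) (φ : AddMonoid.End U) {x x' y y' : U} {a a' b b' : AddMonoid.End U}
    (h2 : nr (L (y + y') + (b + b')) ≤ C ^ 3)
    (hφ : φ (x + x') = y + y') (r : nr (a * a + b) ≤ C) (r' : nr (a' * a' + b') ≤ C) :
    nr (L (φ (x + x')) + (a * a + a' * a')) ≤ C ^ 5 := by
  rw [hφ]
  have e : L (y + y') + (a * a + a' * a') = (L (y + y') + (b + b')) + (a * a + b) + (a' * a' + b') := by
    have e3 : (L (y + y') + (b + b')) + (a * a + b) + (a' * a' + b') =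
        L (y + y') + (a * a + a' * a') + (b + b) + (b' + b') := by abel
    rw [e3]
    simp only [Pool.Agent.MF.LemT.add_self two, add_zero]
  rw [e]
  calc _ ≤ C ^ 3 * C * C := by
        refine (nr_add _ _).trans (Nat.mul_le_mul ?_ r')
        exact (nr_add _ _).trans (Nat.mul_le_mul h2 r)
    _ = C ^ 5 := by ring

/-- a letter commutes with `Θ` -/
theorem rule_AT (two : ∀ u : U, u + u = 0) {Θ a b : AddMonoid.End U} (r : nr (Θ * a + b) ≤ C)
    (r' : nr (a * Θ + b) ≤ C) : nr (a * Θ + Θ * a) ≤ C ^ 2 := by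
  have e : a * Θ + Θ * a = (a * Θ + b) + (Θ * a + b) := by
    have e3 : (a * Θ + b) + (Θ * a + b) = a * Θ + Θ * a + (b + b) := by abel
    rw [e3, Pool.Agent.MF.LemT.add_self two, add_zero]
  rw [e]
  calc _ ≤ C * C := (nr_add _ _).trans (Nat.mul_le_mul r' r)
    _ = C ^ 2 := by ring

/-- all `u ∈ W`: `Θ L u ~ L (Θ u)` -/
theorem ruleW1 {K K1 : ℕ} (hW1 : ∀ (U : Type) [AddCommGroup U] [Finite U], (∀ u : U, u + u = 0) →
    ∀ (f : U → AddMonoid.End U) (ι : Type) (p : ι → U) (P : Set ι) (W' : AddSubgroup U),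
    diffs p P ⊆ W' → (∀ u ∈ W', u ∈ Ball (diffs p P) K) → nr (f 0) ≤ K →
    (∀ u ∈ W', ∀ v ∈ W', nr (f (u + v) + (f u + f v)) ≤ K) →
    (∀ z ∈ P, ∀ z' ∈ P, nr (f (p z + p z')) ≤ K) → ∀ u ∈ W', nr (f u) ≤ K1)
    (two : ∀ u : U, u + u = 0) (add : ∀ u v, nr (L (u + v) + (L u + L v)) ≤ C) (hL0 : nr (L 0) ≤ C)
    (hCK : C ^ 2 ≤ K) (Θ : AddMonoid.End U) {ι : Type} (p : ι → U) (P : Set ι) (W : AddSubgroup U)
    (hPW : diffs p P ⊆ W) (hgen : ∀ u ∈ W, u ∈ Ball (diffs p P) K)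
    (hd : ∀ z ∈ P, ∀ z' ∈ P, nr (Θ * L (p z + p z') + L (Θ (p z + p z'))) ≤ K) :
    ∀ u ∈ W, nr (Θ * L u + L (Θ u)) ≤ K1 := by
  intro u hu
  refine hW1 U two (fun u => Θ * L u + L (Θ u)) ι p P W hPW hgen ?_ ?_ hd u hu
  · show nr (Θ * L 0 + L (Θ 0)) ≤ K
    rw [map_zero]
    refine le_trans ((nr_add _ _).trans (Nat.mul_le_mul ((nr_mul_left _ _).trans hL0) hL0)) ?_
    rw [← pow_two]; exact hCK
  · intro u _ v _
    show nr (Θ * L (u + v) + L (Θ (u + v)) + (Θ * L u + L (Θ u) + (Θ * L v + L (Θ v)))) ≤ K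
    have e : Θ * L (u + v) + L (Θ (u + v)) + (Θ * L u + L (Θ u) + (Θ * L v + L (Θ v))) =
        Θ * (L (u + v) + (L u + L v)) + (L (Θ u + Θ v) + (L (Θ u) + L (Θ v))) := by
      rw [map_add Θ u v]
      simp only [mul_add]
      abel
    rw [e]
    refine le_trans ((nr_add _ _).trans (Nat.mul_le_mul ((nr_mul_left _ _).trans (add _ _)) (add _ _))) ?_
    rw [← pow_two]; exact hCK

/-- all `u ∈ W`: `g L u ~ L (g u) g` -/
theorem ruleW2 {K K1 : ℕ} (hW1 : ∀ (U : Type) [AddCommGroup U] [Finite U], (∀ u : U, u + u = 0) →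
    ∀ (f : U → AddMonoid.End U) (ι : Type) (p : ι → U) (P : Set ι) (W' : AddSubgroup U),
    diffs p P ⊆ W' → (∀ u ∈ W', u ∈ Ball (diffs p P) K) → nr (f 0) ≤ K →
    (∀ u ∈ W', ∀ v ∈ W', nr (f (u + v) + (f u + f v)) ≤ K) →
    (∀ z ∈ P, ∀ z' ∈ P, nr (f (p z + p z')) ≤ K) → ∀ u ∈ W', nr (f u) ≤ K1)
    (two : ∀ u : U, u + u = 0) (add : ∀ u v, nr (L (u + v) + (L u + L v)) ≤ C) (hL0 : nr (L 0) ≤ C)
    (hCK : C ^ 2 ≤ K) (g : AddMonoid.End U) {ι : Type} (p : ι → U) (P : Set ι) (W : AddSubgroup U)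
    (hPW : diffs p P ⊆ W) (hgen : ∀ u ∈ W, u ∈ Ball (diffs p P) K)
    (hd : ∀ z ∈ P, ∀ z' ∈ P, nr (g * L (p z + p z') + L (g (p z + p z')) * g) ≤ K) :
    ∀ u ∈ W, nr (g * L u + L (g u) * g) ≤ K1 := by
  intro u hu
  refine hW1 U two (fun u => g * L u + L (g u) * g) ι p P W hPW hgen ?_ ?_ hd u hu
  · show nr (g * L 0 + L (g 0) * g) ≤ K
    rw [map_zero]
    refine le_trans ((nr_add _ _).trans (Nat.mul_le_mul ((nr_mul_left _ _).trans hL0)
      ((nr_mul_right _ _).trans hL0))) ?_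
    rw [← pow_two]; exact hCK
  · intro u _ v _
    show nr (g * L (u + v) + L (g (u + v)) * g + (g * L u + L (g u) * g + (g * L v + L (g v) * g))) ≤ K
    have e : g * L (u + v) + L (g (u + v)) * g + (g * L u + L (g u) * g + (g * L v + L (g v) * g)) =
        g * (L (u + v) + (L u + L v)) + (L (g u + g v) + (L (g u) + L (g v))) * g := by
      rw [map_add g u v]
      simp only [mul_add, add_mul]
      abel
    rw [e]
    refine le_trans ((nr_add _ _).trans (Nat.mul_le_mul ((nr_mul_left _ _).trans (add _ _))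
      ((nr_mul_right _ _).trans (add _ _)))) ?_
    rw [← pow_two]; exact hCK

end

/-- **PRE.** -/
theorem stmtPre : StmtPre := by
  classical
  intro C
  obtain ⟨K0, hK0⟩ : ∃ K0 : ℕ, K0 = C ^ 8 + C ^ 2 + (3 * (C ^ 11 * C) + 1) := ⟨_, rfl⟩
  obtain ⟨K1, hK1⟩ := rule_W K0
  obtain ⟨K2, hK2⟩ := dz C
  obtain ⟨K, hK⟩ : ∃ K : ℕ, K = C + C ^ 2 + C ^ 3 + C ^ 5 + C ^ 11 + C ^ 11 * C + K1 + K2 + 1 := ⟨_, rfl⟩
  refine ⟨K, by omega, ?_⟩
  intro U Λ _ _ _ _ d hd
  have two := hd.two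
  have hC : 1 ≤ C := (nr_pos _).trans_le (hd.add 0 0)
  have hL0 : nr (d.L 0) ≤ C := by
    have h1 := hd.add 0 0
    rwa [add_zero, Pool.Agent.MF.LemT.add_self two, add_zero] at h1
  choose! νa hνa using hd.cola
  choose! νΘ hνΘ using hd.colΘ
  choose! νζ hνζ using hd.colζ
  choose! νg hνg using hd.colg
  choose! νs hνs using hd.cols
  choose! νφ hνφ using hd.colφ
  have nmΘ : ∀ z ∈ d.S, d.Θ (d.pa z) + d.pΘ z ∈ noise d.HΘ := fun z hz => noise_mem two hd.opΘ (hd.memΘ z hz)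
  have nmζ : ∀ z ∈ d.S, d.ζ (d.pa z) + d.pζ z ∈ noise d.Hζ := fun z hz => noise_mem two hd.opζ (hd.memζ z hz)
  have nmg : ∀ z ∈ d.S, d.g (d.pa z) + d.pg z ∈ noise d.Hg := fun z hz => noise_mem two hd.opg (hd.memg z hz)
  have nms : ∀ z ∈ d.S, d.s (d.pa z) + d.ps z ∈ noise d.Hs := fun z hz => noise_mem two hd.ops (hd.mems z hz)
  have nmφ : ∀ z ∈ d.S, d.φ (d.pa z) + d.pφ z ∈ noise d.Hφ := fun z hz => noise_mem two hd.opφ (hd.memφ z hz)
  obtain ⟨b, -, hb⟩ := popular d.S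
    (fun z => ((νa z, νΘ z, νζ z, νg z, νs z, νφ z),
      (d.Θ (d.pa z) + d.pΘ z, d.ζ (d.pa z) + d.pζ z, d.g (d.pa z) + d.pg z, d.s (d.pa z) + d.ps z,
        d.φ (d.pa z) + d.pφ z)))
    ((d.VV ×ˢ (d.VV ×ˢ (d.VV ×ˢ (d.VV ×ˢ (d.VV ×ˢ d.VV))))) ×ˢ
      (noise d.HΘ ×ˢ (noise d.Hζ ×ˢ (noise d.Hg ×ˢ (noise d.Hs ×ˢ noise d.Hφ)))))
    (by
      intro z hz
      simp only [Finset.mem_product]
      exact ⟨⟨(hνa z hz).1, (hνΘ z hz).1, (hνζ z hz).1, (hνg z hz).1, (hνs z hz).1, (hνφ z hz).1⟩,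
        nmΘ z hz, nmζ z hz, nmg z hz, nms z hz, nmφ z hz⟩) hd.ne
  obtain ⟨P, hP⟩ : ∃ P : Finset Λ, P = d.S.filter (fun z => ((νa z, νΘ z, νζ z, νg z, νs z, νφ z),
      (d.Θ (d.pa z) + d.pΘ z, d.ζ (d.pa z) + d.pζ z, d.g (d.pa z) + d.pg z, d.s (d.pa z) + d.ps z,
        d.φ (d.pa z) + d.pφ z)) = b) := ⟨_, rfl⟩
  rw [← hP] at hb
  have hPsub : P ⊆ d.S := by rw [hP]; exact Finset.filter_subset _ _
  have hTc : (((d.VV ×ˢ (d.VV ×ˢ (d.VV ×ˢ (d.VV ×ˢ (d.VV ×ˢ d.VV))))) ×ˢ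
      (noise d.HΘ ×ˢ (noise d.Hζ ×ˢ (noise d.Hg ×ˢ (noise d.Hs ×ˢ noise d.Hφ)))))).card ≤ C ^ 11 := by
    simp only [Finset.card_product]
    calc _ ≤ (C * (C * (C * (C * (C * C))))) * (C * (C * (C * (C * C)))) := by
          refine Nat.mul_le_mul (Nat.mul_le_mul hd.cV (Nat.mul_le_mul hd.cV (Nat.mul_le_mul hd.cV
            (Nat.mul_le_mul hd.cV (Nat.mul_le_mul hd.cV hd.cV))))) ?_
          exact Nat.mul_le_mul (noise_card hd.opΘ) (Nat.mul_le_mul (noise_card hd.opζ) (Nat.mul_le_mul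
            (noise_card hd.opg) (Nat.mul_le_mul (noise_card hd.ops) (noise_card hd.opφ))))
      _ = C ^ 11 := by ring
  have hPcard : d.S.card ≤ C ^ 11 * P.card := hb.trans (Nat.mul_le_mul_right _ hTc)
  have hPne : P.Nonempty := by
    by_contra h
    rw [Finset.not_nonempty_iff_eq_empty] at h
    rw [h, Finset.card_empty, mul_zero] at hPcard
    have := Finset.card_pos.mpr hd.ne
    omega
  have hPv : ∀ z ∈ P, (νa z = b.1.1 ∧ νΘ z = b.1.2.1 ∧ νζ z = b.1.2.2.1 ∧ νg z = b.1.2.2.2.1 ∧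
      νs z = b.1.2.2.2.2.1 ∧ νφ z = b.1.2.2.2.2.2) ∧ (d.Θ (d.pa z) + d.pΘ z = b.2.1 ∧
      d.ζ (d.pa z) + d.pζ z = b.2.2.1 ∧ d.g (d.pa z) + d.pg z = b.2.2.2.1 ∧ d.s (d.pa z) + d.ps z = b.2.2.2.2.1 ∧
        d.φ (d.pa z) + d.pφ z = b.2.2.2.2.2) := by
    intro z hz
    rw [hP] at hz
    have h1 := (Finset.mem_filter.mp hz).2
    rw [← h1]
    exact ⟨⟨rfl, rfl, rfl, rfl, rfl, rfl⟩, rfl, rfl, rfl, rfl, rfl⟩
  -- density
  have hdens := hd.densa (C ^ 11) P hPsub hPcard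
  obtain ⟨X, hX⟩ : ∃ X : Set U, X = diffs d.pa (P : Set Λ) := ⟨_, rfl⟩
  have himg : (P.image d.pa).card = (d.pa '' (P : Set Λ)).ncard := by
    rw [← Finset.coe_image, Set.ncard_coe_finset]
  have hXcard : Nat.card U ≤ C ^ 11 * C * X.ncard := by
    have h1 := card_diffs d.pa (P : Set Λ) (by simpa using hPne)
    rw [Nat.card_eq_fintype_card, hX]
    refine hdens.trans (Nat.mul_le_mul_left _ ?_)
    rw [himg]
    exact h1
  have hX0 : (0 : U) ∈ X := by
    obtain ⟨w, hw⟩ := hPne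
    rw [hX]
    exact zero_mem_diffs two d.pa (P := (P : Set Λ)) (z := w) (by simpa using hw)
  have hWi := index_closure_le X hX0 _ hXcard
  have hgen := dense_gen two X hX0 _ hXcard
  obtain ⟨W, hW⟩ : ∃ W : AddSubgroup U, W = AddSubgroup.closure X := ⟨_, rfl⟩
  rw [← hW] at hWi hgen
  have hball : ∀ u ∈ W, u ∈ Ball (diffs d.pa (P : Set Λ)) K0 := by
    intro u hu
    rw [← hX]
    exact Ball.mono' (by omega) (hgen hu)
  have hXW : diffs d.pa (P : Set Λ) ⊆ W := by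
    rw [hW, ← hX]
    exact AddSubgroup.subset_closure
  -- two letters
  have c2 : ∀ (p : Λ → U) (A ν : Λ → AddMonoid.End U) (c : AddMonoid.End U),
      (∀ z ∈ d.S, ν z ∈ d.VV ∧ nr (A z + (d.L (p z) + ν z)) ≤ C) → (∀ z ∈ P, ν z = c) →
      ∀ z ∈ P, ∀ z' ∈ P, nr (d.L (p z + p z') + (A z + A z')) ≤ C ^ 3 := by
    intro p A ν c h1 h2 z hz z' hz'
    have h3 := (h1 z (hPsub hz)).2
    have h4 := (h1 z' (hPsub hz')).2
    rw [h2 z hz] at h3
    rw [h2 z' hz'] at h4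
    exact two_letters two d.L hd.add h3 h4
  have ca := c2 d.pa d.Aa νa _ hνa (fun z hz => (hPv z hz).1.1)
  have cΘ := c2 d.pΘ d.AΘ νΘ _ hνΘ (fun z hz => (hPv z hz).1.2.1)
  have cζ := c2 d.pζ d.Aζ νζ _ hνζ (fun z hz => (hPv z hz).1.2.2.1)
  have cg := c2 d.pg d.Ag νg _ hνg (fun z hz => (hPv z hz).1.2.2.2.1)
  have cs := c2 d.ps d.As νs _ hνs (fun z hz => (hPv z hz).1.2.2.2.2.1)
  have cφ := c2 d.pφ d.Aφ νφ _ hνφ (fun z hz => (hPv z hz).1.2.2.2.2.2)
  -- noises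
  have eΘ : ∀ z ∈ P, ∀ z' ∈ P, d.Θ (d.pa z + d.pa z') = d.pΘ z + d.pΘ z' := fun z hz z' hz' =>
    noise_diff two d.Θ (hPv z hz).2.1 (hPv z' hz').2.1
  have eζ : ∀ z ∈ P, ∀ z' ∈ P, d.ζ (d.pa z + d.pa z') = d.pζ z + d.pζ z' := fun z hz z' hz' =>
    noise_diff two d.ζ (hPv z hz).2.2.1 (hPv z' hz').2.2.1
  have eg : ∀ z ∈ P, ∀ z' ∈ P, d.g (d.pa z + d.pa z') = d.pg z + d.pg z' := fun z hz z' hz' =>
    noise_diff two d.g (hPv z hz).2.2.2.1 (hPv z' hz').2.2.2.1
  have es : ∀ z ∈ P, ∀ z' ∈ P, d.s (d.pa z + d.pa z') = d.ps z + d.ps z' := fun z hz z' hz' =>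
    noise_diff two d.s (hPv z hz).2.2.2.2.1 (hPv z' hz').2.2.2.2.1
  have eφ : ∀ z ∈ P, ∀ z' ∈ P, d.φ (d.pa z + d.pa z') = d.pφ z + d.pφ z' := fun z hz z' hz' =>
    noise_diff two d.φ (hPv z hz).2.2.2.2.2 (hPv z' hz').2.2.2.2.2
  -- the rules on `W`
  have hC2 : C ^ 2 ≤ K0 := by omega
  have wΘ := ruleW1 (K := K0) (K1 := K1) hK1 two hd.add hL0 hC2 d.Θ d.pa (P : Set Λ) W hXW hball (by
    intro z hz z' hz'
    rw [Finset.mem_coe] at hz hz'
    exact (rule1 two d.Θ (ca z hz z' hz') (cΘ z hz z' hz') (eΘ z hz z' hz') (hd.lΘ z (hPsub hz))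
      (hd.lΘ z' (hPsub hz'))).trans (by omega))
  have wζ := ruleW1 (K := K0) (K1 := K1) hK1 two hd.add hL0 hC2 d.ζ d.pa (P : Set Λ) W hXW hball (by
    intro z hz z' hz'
    rw [Finset.mem_coe] at hz hz'
    exact (rule1 two d.ζ (ca z hz z' hz') (cζ z hz z' hz') (eζ z hz z' hz') (hd.lζ z (hPsub hz))
      (hd.lζ z' (hPsub hz'))).trans (by omega))
  have wg := ruleW2 (K := K0) (K1 := K1) hK1 two hd.add hL0 hC2 d.g d.pa (P : Set Λ) W hXW hball (by
    intro z hz z' hz'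
    rw [Finset.mem_coe] at hz hz'
    exact (rule2 two d.g (ca z hz z' hz') (cg z hz z' hz') (eg z hz z' hz') (hd.rg z (hPsub hz))
      (hd.rg z' (hPsub hz'))).trans (by omega))
  have ws := ruleW2 (K := K0) (K1 := K1) hK1 two hd.add hL0 hC2 d.s d.pa (P : Set Λ) W hXW hball (by
    intro z hz z' hz'
    rw [Finset.mem_coe] at hz hz'
    exact (rule2 two d.s (ca z hz z' hz') (cs z hz z' hz') (es z hz z' hz') (hd.rs z (hPsub hz))
      (hd.rs z' (hPsub hz'))).trans (by omega))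
  have wφ := ruleW2 (K := K0) (K1 := K1) hK1 two hd.add hL0 hC2 d.φ d.pa (P : Set Λ) W hXW hball (by
    intro z hz z' hz'
    rw [Finset.mem_coe] at hz hz'
    exact (rule2 two d.φ (ca z hz z' hz') (cφ z hz z' hz') (eφ z hz z' hz') (hd.rφ z (hPsub hz))
      (hd.rφ z' (hPsub hz'))).trans (by omega))
  have self : ∀ f : AddMonoid.End U, nr (f + f) ≤ K := by
    intro f
    rw [Pool.Agent.MF.LemT.add_self two, Pool.Agent.MF.LemT.nr_zero]
    omega
  refine ⟨P, W, d.Θ, d.ζ, d.g, d.s, d.φ, ?_⟩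
  refine
    { sub := hPsub
      card := hPcard.trans (Nat.mul_le_mul_right _ (by omega))
      letters := ?_
      kφ := hd.opφ.ker.trans (by omega)
      kφ1 := hd.kφ1.trans (by omega)
      kζ := hd.opζ.ker.trans (by omega)
      hφ := fun u hu => (wφ u hu).trans (by omega)
      hg := fun u hu => (wg u hu).trans (by omega)
      hs := fun u hu => (ws u hu).trans (by omega)
      hΘ := fun u hu => (wΘ u hu).trans (by omega)
      hζ := fun u hu => (wζ u hu).trans (by omega)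
      nΘ := self _
      nζ := self _
      ng := self _
      ns := self _
      nφ := self _
      fφ := ⟨{b.2.2.2.2.2}, by rw [Finset.card_singleton]; omega, fun z hz => by
        rw [Finset.mem_singleton]; exact (hPv z hz).2.2.2.2.2⟩
      dom := ?_ }
  · refine
      { lab := lab_mono hd.lab (by omega)
        kT := hd.opΘ.ker.trans (by omega)
        add := fun u v => (hd.add u v).trans (by omega)
        W_index := hWi.trans (by omega)
        rule := fun u hu => (wΘ u hu).trans (by omega)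
        AA := ?_
        AT := ?_
        D := ?_
        sq := ?_
        dense := ?_ }
    · intro z z'
      have h1 := ca z.1 z.2 z'.1 z'.2
      rw [add_comm (d.L _)] at h1
      exact h1.trans (by omega)
    · intro z
      exact (rule_AT two (hd.lΘ z.1 (hPsub z.2)) (hd.rΘ z.1 (hPsub z.2))).trans (by omega)
    · intro z
      obtain ⟨D, f, hD, hf⟩ := hK2 U Λ d hd z.1 (hPsub z.2)
      exact ⟨D, hD.trans (by omega), fun w hw => (hf w hw).2.trans (by omega)⟩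
    · intro z z'
      exact (rule_sq two d.φ (cφ z.1 z.2 z'.1 z'.2) (eφ z.1 z.2 z'.1 z'.2) (hd.sq z.1 (hPsub z.2))
        (hd.sq z'.1 (hPsub z'.2))).trans (by omega)
    · have h1 : Set.range (fun z : {z // z ∈ P} => d.pa z.1) = d.pa '' (P : Set Λ) := by
        ext v
        constructor
        · rintro ⟨z, rfl⟩
          exact ⟨z.1, z.2, rfl⟩
        · rintro ⟨z, hz, rfl⟩
          exact ⟨⟨z, hz⟩, rfl⟩
      rw [h1, ← himg, Nat.card_eq_fintype_card]
      exact hdens.trans (Nat.mul_le_mul_right _ (by omega))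
  · intro z hz
    obtain ⟨D, f, hD, hf⟩ := hK2 U Λ d hd z (hPsub hz)
    exact ⟨D, f, hD.trans (by omega), fun w hw => (hf w hw).1.trans (by omega)⟩

end Pool.Agent.helper64.PreS
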